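import Pool.Agent.H414.GL.Spec

/-!
One scale, all characters.
-/

set_option autoImplicit false

namespace Pool.Agent.H414.GL

open Finset
open Pool.Agent.H414.LT (primesUpTo blk kk)

namespace Cc

theorem card_char (q : ℕ) [Fintype (DirichletCharacter ℂ (q + 1))] :
    (Fintype.card (DirichletCharacter ℂ (q + 1)) : ℝ) ≤ (q : ℝ) + 1 := by
  have h1 := DirichletCharacter.card_eq_totient_of_hasEnoughRootsOfUnity ℂ (q + 1)
  rw [Nat.card_eq_fintype_card] at h1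
  rw [h1]
  have h2 := Nat.totient_le (q + 1)
  exact_mod_cast h2

theorem sum_one (R : ℕ) : ∑ j : Fin R, 1 / ((j.val : ℝ) + 2) ^ 2 ≤ 1 := by
  rw [Fin.sum_univ_eq_sum_range (fun j : ℕ => 1 / ((j : ℝ) + 2) ^ 2)]
  have h : ∀ n : ℕ, ∑ j ∈ range n, 1 / ((j : ℝ) + 2) ^ 2 ≤ 1 - 1 / ((n : ℝ) + 1) := by
    intro n
    induction n with
    | zero => simp
    | succ n ih =>
      rw [Finset.sum_range_succ]
      have h1 : 1 / ((n : ℝ) + 2) ^ 2 ≤ 1 / ((n : ℝ) + 1) - 1 / ((n : ℝ) + 2) := by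
        have e : 1 / ((n : ℝ) + 1) - 1 / ((n : ℝ) + 2) = 1 / (((n : ℝ) + 1) * ((n : ℝ) + 2)) := by
          field_simp
          ring
        rw [e]
        refine one_div_le_one_div_of_le (by positivity) ?_
        nlinarith [(n.cast_nonneg : (0 : ℝ) ≤ n)]
      have e2 : ((n + 1 : ℕ) : ℝ) + 1 = (n : ℝ) + 2 := by
        push_cast
        ring
      rw [e2]
      linarith
  have h2 := h R
  have h3 : (0 : ℝ) ≤ 1 / ((R : ℝ) + 1) := by positivity
  linarith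

theorem sum_two (R : ℕ) : ∑ j : Fin R, 1 / ((j.val : ℝ) + 1) ^ 2 ≤ 2 := by
  rw [Fin.sum_univ_eq_sum_range (fun j : ℕ => 1 / ((j : ℝ) + 1) ^ 2)]
  cases R with
  | zero => simp
  | succ R =>
    rw [Finset.sum_range_succ']
    have h := sum_one R
    rw [Fin.sum_univ_eq_sum_range (fun j : ℕ => 1 / ((j : ℝ) + 2) ^ 2)] at h
    have e : ∀ k ∈ range R, 1 / (((k + 1 : ℕ) : ℝ) + 1) ^ 2 = 1 / ((k : ℝ) + 2) ^ 2 := by
      intro k _
      push_cast
      ring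
    rw [Finset.sum_congr rfl e]
    simp only [CharP.cast_eq_zero, zero_add, one_pow, div_one]
    linarith

theorem card_U (l y : ℕ) : (((U l).filter (· ≤ y)).card : ℝ) ≤ √(y : ℝ) * 4 ^ (l + 1) := by
  have h1 : ((U l).filter (· ≤ y)).card ≤ 4 ^ (l + 1) := by
    calc ((U l).filter (· ≤ y)).card ≤ (U l).card := Finset.card_filter_le _ _
      _ ≤ (Ioc (2 ^ (l + 1)) (4 ^ (l + 1))).card := Finset.card_filter_le _ _
      _ = 4 ^ (l + 1) - 2 ^ (l + 1) := Nat.card_Ioc _ _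
      _ ≤ 4 ^ (l + 1) := Nat.sub_le _ _
  have h1' : (((U l).filter (· ≤ y)).card : ℝ) ≤ 4 ^ (l + 1) := by exact_mod_cast h1
  rcases Nat.eq_zero_or_pos y with rfl | hy
  · have h2 : (U l).filter (· ≤ 0) = ∅ := by
      refine Finset.filter_eq_empty_iff.2 fun n hn h0 => ?_
      have h3 := (Finset.mem_filter.1 hn).2
      have h4 := h3.pos
      omega
    rw [h2]
    simp
  · have h2 : (1 : ℝ) ≤ √(y : ℝ) := Real.one_le_sqrt.2 (by exact_mod_cast hy)
    have h3 : (0 : ℝ) ≤ 4 ^ (l + 1) := by positivity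
    nlinarith

theorem norm_sum (s : Finset ℕ) (l y : ℕ) (hs : s ⊆ (U l).filter (· ≤ y)) (f : ℕ → ℂ)
    (hf : ∀ n, ‖f n‖ ≤ 1) : ‖∑ n ∈ s, f n‖ ≤ √(y : ℝ) * 4 ^ (l + 1) := by
  calc ‖∑ n ∈ s, f n‖ ≤ ∑ n ∈ s, ‖f n‖ := norm_sum_le _ _
    _ ≤ ∑ n ∈ s, (1 : ℝ) := Finset.sum_le_sum fun n _ => hf n
    _ = (s.card : ℝ) := by simp
    _ ≤ (((U l).filter (· ≤ y)).card : ℝ) := by exact_mod_cast Finset.card_le_card hs
    _ ≤ _ := card_U l y

end Cc

open Cc in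
theorem cc (hWT : S_WT) (hSC : S_SC) : S_CC := by
  classical
  obtain ⟨C₁, l₁, hC₁, hWT⟩ := hWT
  obtain ⟨C, l₀, hC, hSC⟩ := hSC
  refine ⟨5 * C + 4, max l₀ l₁, by positivity, ?_⟩
  intro l hl c hc
  obtain ⟨-, hw0, hw1, -⟩ := hWT l ((le_max_right _ _).trans hl)
  set R : ℕ := 2 ^ (4 ^ (l + 1)) with hR
  let J : Type := Fin R × Σ q : Fin R, DirichletCharacter ℂ (q.val + 1)
  let W : J → ℝ := fun x =>
    1 / 4 * (1 / ((x.1.val : ℝ) + 2) ^ 2 * (1 / ((x.2.1.val : ℝ) + 1) ^ 3))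
  let c' : J → ℕ → ℂ := fun x n => c x.1.val n * x.2.2 n
  have hcc : ∀ (j q : ℕ) [NeZero q] (χ : DirichletCharacter ℂ q) (n : ℕ), ‖c j n * χ n‖ ≤ 1 := by
    intro j q _ χ n
    rw [norm_mul]
    exact mul_le_one₀ (hc j n) (norm_nonneg _) (χ.norm_le_one _)
  have hW0 : ∀ x, 0 < W x := fun x => by positivity
  have hWs : ∑ x, W x ≤ 1 := by
    have e1 : ∑ x, W x = 1 / 4 * ((∑ j : Fin R, 1 / ((j.val : ℝ) + 2) ^ 2) *
        ∑ q : Fin R, (Fintype.card (DirichletCharacter ℂ (q.val + 1)) : ℝ) *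
          (1 / ((q.val : ℝ) + 1) ^ 3)) := by
      rw [Fintype.sum_prod_type, Finset.sum_mul, Finset.mul_sum]
      refine Finset.sum_congr rfl fun j _ => ?_
      rw [Fintype.sum_sigma, Finset.mul_sum, Finset.mul_sum]
      refine Finset.sum_congr rfl fun q _ => ?_
      simp only [W, Finset.sum_const, Finset.card_univ, nsmul_eq_mul]
      ring
    have e2 : ∑ q : Fin R, (Fintype.card (DirichletCharacter ℂ (q.val + 1)) : ℝ) *
        (1 / ((q.val : ℝ) + 1) ^ 3) ≤ 2 := by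
      refine le_trans (Finset.sum_le_sum fun q _ => ?_) (sum_two R)
      calc (Fintype.card (DirichletCharacter ℂ (q.val + 1)) : ℝ) * (1 / ((q.val : ℝ) + 1) ^ 3) ≤
          ((q.val : ℝ) + 1) * (1 / ((q.val : ℝ) + 1) ^ 3) :=
            mul_le_mul_of_nonneg_right (card_char q.val) (by positivity)
        _ = 1 / ((q.val : ℝ) + 1) ^ 2 := by
            field_simp
    have e3 := sum_one R
    have e4 : (∑ j : Fin R, 1 / ((j.val : ℝ) + 2) ^ 2) *
        ∑ q : Fin R, (Fintype.card (DirichletCharacter ℂ (q.val + 1)) : ℝ) *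
          (1 / ((q.val : ℝ) + 1) ^ 3) ≤ 1 * 2 :=
      mul_le_mul e3 e2 (Finset.sum_nonneg fun q _ => by positivity) (by norm_num)
    rw [e1]
    linarith
  obtain ⟨a, h1, h3, h4⟩ := hSC l ((le_max_left _ _).trans hl) J W c' hW0 hWs
    (fun x n => hcc _ _ _ _)
  have hl1 : (1 : ℝ) ≤ (l : ℝ) + 1 := by
    have : (0 : ℝ) ≤ l := l.cast_nonneg
    linarith
  refine ⟨a, h1, ?_, ?_⟩
  · intro j q hq χ y
    have hq1 : 1 ≤ q := Nat.one_le_iff_ne_zero.2 (NeZero.ne q)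
    have hqR : (1 : ℝ) ≤ q := by exact_mod_cast hq1
    have hj0 : (0 : ℝ) ≤ j := j.cast_nonneg
    have hL2 : (2 : ℝ) ≤ ((j : ℝ) + 2) * q := by nlinarith
    have hlog2 : Real.log 2 ≤ Real.log (((j : ℝ) + 2) * q) := Real.log_le_log (by norm_num) hL2
    have hlog0 : 0 < Real.log (((j : ℝ) + 2) * q) := lt_of_lt_of_le (Real.log_pos (by norm_num)) hlog2
    have hsy : (0 : ℝ) ≤ √(y : ℝ) := Real.sqrt_nonneg _
    by_cases hjq : j < R ∧ q ≤ R
    · obtain ⟨q, rfl⟩ : ∃ q', q = q' + 1 := ⟨q - 1, by omega⟩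
      have hx := h3 (⟨⟨j, hjq.1⟩, ⟨⟨q, by omega⟩, χ⟩⟩ : J) y
      refine hx.trans ?_
      have e1 : Real.log (1 / W (⟨⟨j, hjq.1⟩, ⟨⟨q, by omega⟩, χ⟩⟩ : J)) ≤
          5 * Real.log (((j : ℝ) + 2) * (q + 1 : ℕ)) := by
        have e2 : 1 / W (⟨⟨j, hjq.1⟩, ⟨⟨q, by omega⟩, χ⟩⟩ : J) =
            4 * ((j : ℝ) + 2) ^ 2 * (((q + 1 : ℕ) : ℝ)) ^ 3 := by
          simp only [W]
          push_cast
          field_simp
        rw [e2]
        have e3 : 4 * ((j : ℝ) + 2) ^ 2 * (((q + 1 : ℕ) : ℝ)) ^ 3 ≤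
            (((j : ℝ) + 2) * (q + 1 : ℕ)) ^ 5 := by
          have f1 : (4 : ℝ) ≤ (((j : ℝ) + 2) * (q + 1 : ℕ)) ^ 2 := by nlinarith
          have f2 : ((j : ℝ) + 2) ^ 2 * (((q + 1 : ℕ) : ℝ)) ^ 3 ≤
              (((j : ℝ) + 2) * (q + 1 : ℕ)) ^ 3 := by
            rw [mul_pow]
            refine mul_le_mul_of_nonneg_right ?_ (by positivity)
            exact pow_le_pow_right₀ (by linarith) (by norm_num)
          calc 4 * ((j : ℝ) + 2) ^ 2 * (((q + 1 : ℕ) : ℝ)) ^ 3 =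
              4 * (((j : ℝ) + 2) ^ 2 * (((q + 1 : ℕ) : ℝ)) ^ 3) := by ring
            _ ≤ (((j : ℝ) + 2) * (q + 1 : ℕ)) ^ 2 * (((j : ℝ) + 2) * (q + 1 : ℕ)) ^ 3 :=
              mul_le_mul f1 f2 (by positivity) (by positivity)
            _ = _ := by ring
        calc Real.log (4 * ((j : ℝ) + 2) ^ 2 * (((q + 1 : ℕ) : ℝ)) ^ 3) ≤
            Real.log ((((j : ℝ) + 2) * (q + 1 : ℕ)) ^ 5) := Real.log_le_log (by positivity) e3
          _ = _ := by
              rw [Real.log_pow]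
              push_cast
              ring
      have e2' : 0 ≤ C * √(y : ℝ) * ((l : ℝ) + 1) := by positivity
      set L := Real.log (((j : ℝ) + 2) * (q + 1 : ℕ)) with hL
      calc C * √(y : ℝ) * ((l : ℝ) + 1) *
            ((l : ℝ) + 1 + Real.log (1 / W (⟨⟨j, hjq.1⟩, ⟨⟨q, by omega⟩, χ⟩⟩ : J))) ≤
          C * √(y : ℝ) * ((l : ℝ) + 1) * (5 * ((l : ℝ) + 1 + L)) :=
            mul_le_mul_of_nonneg_left (by linarith) e2'
        _ ≤ C * √(y : ℝ) * ((l : ℝ) + 1) * (5 * ((l : ℝ) + 1 + L)) +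
              4 * √(y : ℝ) * ((l : ℝ) + 1) * ((l : ℝ) + 1 + L) := by
            have : 0 ≤ 4 * √(y : ℝ) * ((l : ℝ) + 1) * ((l : ℝ) + 1 + L) := by positivity
            linarith
        _ = _ := by ring
    · have hlow : (4 : ℝ) ^ (l + 1) * (1 / 2) ≤ Real.log (((j : ℝ) + 2) * q) := by
        have f1 : ((2 : ℝ) ^ (4 ^ (l + 1))) ≤ ((j : ℝ) + 2) * q := by
          rcases not_and_or.1 hjq with h | h
          · have f2 : R ≤ j := not_lt.1 h
            have f3 : ((2 : ℝ) ^ (4 ^ (l + 1))) ≤ j := by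
              rw [hR] at f2
              exact_mod_cast f2
            nlinarith
          · have f2 : R ≤ q := (not_le.1 h).le
            have f3 : ((2 : ℝ) ^ (4 ^ (l + 1))) ≤ q := by
              rw [hR] at f2
              exact_mod_cast f2
            nlinarith
        have f4 := Real.log_le_log (by positivity) f1
        rw [Real.log_pow] at f4
        push_cast at f4
        have f5 : (1 / 2 : ℝ) ≤ Real.log 2 := by
          have := Real.log_two_gt_d9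
          linarith
        have f6 : (4 : ℝ) ^ (l + 1) * (1 / 2) ≤ (4 : ℝ) ^ (l + 1) * Real.log 2 :=
          mul_le_mul_of_nonneg_left f5 (by positivity)
        linarith
      have g1 : ‖∑ n ∈ (sur a l (fin l)).filter (· ≤ y), c j n * χ n‖ ≤ √(y : ℝ) * 4 ^ (l + 1) :=
        norm_sum _ l y (Finset.filter_subset_filter _ (Finset.filter_subset _ _)) _ (hcc j q χ)
      have g2 : ‖∑ n ∈ (U l).filter (· ≤ y), c j n * χ n‖ ≤ √(y : ℝ) * 4 ^ (l + 1) :=
        norm_sum _ l y (Finset.Subset.refl _) _ (hcc j q χ)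
      have g3 : ‖(wt l (fin l) : ℂ)‖ ≤ 1 := by
        rw [Complex.norm_real, Real.norm_eq_abs, abs_le]
        constructor
        · linarith
        · exact hw1
      have g4 : ‖(wt l (fin l) : ℂ) * ∑ n ∈ (U l).filter (· ≤ y), c j n * χ n‖ ≤
          √(y : ℝ) * 4 ^ (l + 1) := by
        rw [norm_mul]
        calc _ ≤ 1 * (√(y : ℝ) * 4 ^ (l + 1)) := mul_le_mul g3 g2 (norm_nonneg _) (by norm_num)
          _ = √(y : ℝ) * 4 ^ (l + 1) := one_mul _
      have g5 := norm_sub_le (∑ n ∈ (sur a l (fin l)).filter (· ≤ y), c j n * χ n)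
        ((wt l (fin l) : ℂ) * ∑ n ∈ (U l).filter (· ≤ y), c j n * χ n)
      refine g5.trans ?_
      set L := Real.log (((j : ℝ) + 2) * q) with hL
      have g6 : 2 * (√(y : ℝ) * 4 ^ (l + 1)) ≤ 4 * √(y : ℝ) * L := by
        have : √(y : ℝ) * (4 ^ (l + 1) * (1 / 2)) ≤ √(y : ℝ) * L :=
          mul_le_mul_of_nonneg_left hlow hsy
        linarith
      have g7 : 4 * √(y : ℝ) * L ≤ 4 * √(y : ℝ) * ((l : ℝ) + 1) * ((l : ℝ) + 1 + L) := by
        have h5 : L ≤ ((l : ℝ) + 1) * ((l : ℝ) + 1 + L) := by nlinarith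
        have h6 : 4 * √(y : ℝ) * L ≤ 4 * √(y : ℝ) * (((l : ℝ) + 1) * ((l : ℝ) + 1 + L)) :=
          mul_le_mul_of_nonneg_left h5 (by positivity)
        linarith
      have g8 : 0 ≤ 5 * C * √(y : ℝ) * ((l : ℝ) + 1) * ((l : ℝ) + 1 + L) := by positivity
      have g9 : (5 * C + 4) * √(y : ℝ) * ((l : ℝ) + 1) * ((l : ℝ) + 1 + L) =
          5 * C * √(y : ℝ) * ((l : ℝ) + 1) * ((l : ℝ) + 1 + L) +
            4 * √(y : ℝ) * ((l : ℝ) + 1) * ((l : ℝ) + 1 + L) := by ring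
      rw [g9]
      linarith
  · refine h4.trans ?_
    have h5 : (0 : ℝ) ≤ 2 ^ l / ((l : ℝ) + 1) ^ 2 := by positivity
    have h6 : C * 2 ^ l / ((l : ℝ) + 1) ^ 2 = C * (2 ^ l / ((l : ℝ) + 1) ^ 2) := by ring
    have h7 : (5 * C + 4) * 2 ^ l / ((l : ℝ) + 1) ^ 2 = (5 * C + 4) * (2 ^ l / ((l : ℝ) + 1) ^ 2) := by
      ring
    rw [h6, h7]
    exact mul_le_mul_of_nonneg_right (by linarith) h5

end Pool.Agent.H414.GL
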