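import Pool.Agent.H414.LT.Defs

/-!
Definitions of the project GL: sets of primes which cannot be distinguished from the primes by twisted
character sums, and least elements in arithmetic progressions.

From `Pool.Agent.H414.LT`: `primesUpTo x` is the set of the primes `p ≤ x`, and `blk k` the set of the
primes `2 ^ k < p ≤ 2 ^ (k + 1)`.
-/

set_option autoImplicit false

namespace Pool.Agent.H414.GL

open Finset
open Pool.Agent.H414.LT (primesUpTo blk)

open Classical in
/-- `P` behaves like the primes: with weights `w k` for the blocks `2 ^ k < p ≤ 2 ^ (k + 1)`, for all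
twists `c j` and all Dirichlet characters the sum over the `p ≤ x` in `P` differs from the weighted sum
over all primes `p ≤ x` by at most `C √x log (x + 2) log ((j + 2) q (x + 2))`. -/
def Near (P : Set ℕ) (w : ℕ → ℝ) (c : ℕ → ℕ → ℂ) : Prop :=
  ∃ C : ℝ, ∀ (j q : ℕ) [NeZero q] (χ : DirichletCharacter ℂ q) (x : ℕ),
    ‖∑ p ∈ (primesUpTo x).filter (· ∈ P), c j p * χ p -
      ∑ k ∈ range x, (w k : ℂ) * ∑ p ∈ (blk k).filter (· ≤ x), c j p * χ p‖ ≤
      C * √(x : ℝ) * Real.log (x + 2) * Real.log ((j + 2) * q * (x + 2))

end Pool.Agent.H414.GL
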