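import Pool.Agent.H414.GL.Spec

/-!
# The greedy choice (project GL, task GR)
-/

set_option autoImplicit false

namespace Pool.Agent.H414.GL

open Finset
open Pool.Agent.H414.LT (primesUpTo blk kk)

namespace Gr

theorem blk_prime {l q : ℕ} (h : q ∈ blk l) : q.Prime := (mem_filter.1 h).2

theorem blk_bd {l q : ℕ} (h : q ∈ blk l) : 2 ^ l < q ∧ q ≤ 2 ^ (l + 1) :=
  mem_Ioc.1 (mem_filter.1 h).1

theorem q_pos {q : ℕ} (h : q.Prime) : (1 : ℝ) ≤ (q : ℝ) - 1 := by
  have : (2 : ℝ) ≤ q := by exact_mod_cast h.two_le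
  linarith

theorem fac {q : ℕ} (h : q.Prime) : 0 ≤ 1 - 1 / ((q : ℝ) - 1) ∧ 1 - 1 / ((q : ℝ) - 1) ≤ 1 := by
  have h1 := q_pos h
  have h2 : 1 / ((q : ℝ) - 1) ≤ 1 := by
    rw [div_le_one (by linarith)]
    exact h1
  have h3 : 0 ≤ 1 / ((q : ℝ) - 1) := by positivity
  constructor <;> linarith

theorem filt_mem {l q : ℕ} (hq : q ∈ blk l) :
    (blk l).filter (· < q + 1) = insert q ((blk l).filter (· < q)) := by
  ext p
  simp only [mem_filter, mem_insert]
  constructor
  · rintro ⟨h1, h2⟩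
    rcases (Nat.lt_succ_iff_lt_or_eq.1 h2) with h | h
    · exact Or.inr ⟨h1, h⟩
    · exact Or.inl h
  · rintro (h | ⟨h1, h2⟩)
    · rw [h]
      exact ⟨hq, Nat.lt_succ_self q⟩
    · exact ⟨h1, h2.trans (Nat.lt_succ_self q)⟩

theorem not_mem_filt (l q : ℕ) : q ∉ (blk l).filter (· < q) := fun h =>
  lt_irrefl _ (mem_filter.1 h).2

theorem filt_not {l q : ℕ} (hq : q ∉ blk l) :
    (blk l).filter (· < q + 1) = (blk l).filter (· < q) := by
  refine filter_congr fun p hp => ?_
  constructor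
  · intro h
    rcases (Nat.lt_succ_iff_lt_or_eq.1 h) with h | h
    · exact h
    · exact absurd (h ▸ hp) hq
  · intro h
    exact h.trans (Nat.lt_succ_self q)

theorem filt2_mem {l q : ℕ} (hq : q ∈ blk l) :
    (blk l).filter (q ≤ ·) = insert q ((blk l).filter (q + 1 ≤ ·)) := by
  ext p
  simp only [mem_filter, mem_insert]
  constructor
  · rintro ⟨h1, h2⟩
    rcases h2.eq_or_lt with h | h
    · exact Or.inl h.symm
    · exact Or.inr ⟨h1, h⟩
  · rintro (h | ⟨h1, h2⟩)
    · rw [h]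
      exact ⟨hq, le_rfl⟩
    · exact ⟨h1, (Nat.le_succ q).trans h2⟩

theorem not_mem_filt2 (l q : ℕ) : q ∉ (blk l).filter (q + 1 ≤ ·) := fun h =>
  Nat.not_succ_le_self _ (mem_filter.1 h).2

theorem filt2_not {l q : ℕ} (hq : q ∉ blk l) :
    (blk l).filter (q ≤ ·) = (blk l).filter (q + 1 ≤ ·) := by
  refine filter_congr fun p hp => ?_
  constructor
  · intro h
    rcases h.eq_or_lt with h | h
    · exact absurd (h ▸ hp) hq
    · exact h
  · intro h
    exact (Nat.le_succ q).trans h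

theorem wt_zero (l : ℕ) : wt l 0 = 1 := by
  unfold wt
  rw [filter_false_of_mem fun p _ => Nat.not_lt_zero p, prod_empty]

theorem wt_mem {l q : ℕ} (hq : q ∈ blk l) : wt l (q + 1) = (1 - 1 / ((q : ℝ) - 1)) * wt l q := by
  unfold wt
  rw [filt_mem hq, prod_insert (not_mem_filt l q)]

theorem wt_not {l q : ℕ} (hq : q ∉ blk l) : wt l (q + 1) = wt l q := by
  unfold wt
  rw [filt_not hq]

theorem wt_nonneg (l q : ℕ) : 0 ≤ wt l q :=
  prod_nonneg fun _ h => (fac (blk_prime (mem_filter.1 h).1)).1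

theorem wt_anti (l : ℕ) : Antitone (wt l) := by
  refine antitone_nat_of_succ_le fun q => ?_
  by_cases hq : q ∈ blk l
  · rw [wt_mem hq]
    exact mul_le_of_le_one_left (wt_nonneg l q) (fac (blk_prime hq)).2
  · rw [wt_not hq]

theorem wt_le_one (l q : ℕ) : wt l q ≤ 1 := by
  rw [← wt_zero l]
  exact wt_anti l (Nat.zero_le q)

theorem sur_congr {a a' : ℕ → ℕ} {l q : ℕ} (h : ∀ q' < q, a q' = a' q') :
    sur a l q = sur a' l q := by
  unfold sur
  refine filter_congr fun n _ => ?_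
  constructor
  · intro h1 q' hq' hlt
    rw [← h q' hlt]
    exact h1 q' hq' hlt
  · intro h1 q' hq' hlt
    rw [h q' hlt]
    exact h1 q' hq' hlt

theorem sur_zero (a : ℕ → ℕ) (l : ℕ) : sur a l 0 = U l :=
  filter_true_of_mem fun _ _ q' _ h => absurd h (Nat.not_lt_zero q')

theorem sur_mem {a : ℕ → ℕ} {l q : ℕ} (hq : q ∈ blk l) :
    sur a l (q + 1) = (sur a l q).filter (fun n => ¬ n ≡ a q [MOD q]) := by
  unfold sur
  rw [filter_filter]
  refine filter_congr fun n _ => ?_
  constructor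
  · intro h
    exact ⟨fun q' hq' hlt => h q' hq' (hlt.trans (Nat.lt_succ_self q)),
      h q hq (Nat.lt_succ_self q)⟩
  · rintro ⟨h1, h2⟩ q' hq' hlt
    rcases (Nat.lt_succ_iff_lt_or_eq.1 hlt) with h | h
    · exact h1 q' hq' h
    · rw [h]
      exact h2

theorem sur_not {a : ℕ → ℕ} {l q : ℕ} (hq : q ∉ blk l) : sur a l (q + 1) = sur a l q := by
  unfold sur
  refine filter_congr fun n _ => ?_
  constructor
  · intro h q' hq' hlt
    exact h q' hq' (hlt.trans (Nat.lt_succ_self q))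
  · intro h1 q' hq' hlt
    rcases (Nat.lt_succ_iff_lt_or_eq.1 hlt) with h | h
    · exact h1 q' hq' h
    · exact absurd (h ▸ hq') hq

theorem sur_sub (a : ℕ → ℕ) (l q : ℕ) : sur a l q ⊆ U l := filter_subset _ _

theorem cop {l q n : ℕ} (hq : q ∈ blk l) (hn : n ∈ U l) : q.Coprime n := by
  have h1 := mem_filter.1 hn
  have h2 := (mem_Ioc.1 h1.1).1
  have h3 := (blk_bd hq).2
  exact (Nat.coprime_primes (blk_prime hq) h1.2).2 (by omega)

/-- the classes prime to `q` -/
def cl (q : ℕ) : Finset ℕ := (range q).filter (Nat.Coprime q)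

theorem card_cl {q : ℕ} (hq : q.Prime) : ((cl q).card : ℝ) = (q : ℝ) - 1 := by
  have h : (cl q).card = q - 1 := Nat.totient_prime hq
  rw [h, Nat.cast_sub hq.one_le, Nat.cast_one]

theorem sum_dd {l q : ℕ} (hq : q ∈ blk l) (t : ℕ → ℝ) {A : Finset ℕ} (hA : A ⊆ U l) :
    ∑ u ∈ cl q, dd t A q u = 0 := by
  have hp := blk_prime hq
  have h1 : ∑ u ∈ cl q, ∑ n ∈ A.filter (fun n => n ≡ u [MOD q]), t n = ∑ n ∈ A, t n := by
    rw [← sum_fiberwise_of_maps_to (s := A) (t := cl q) (g := fun n => n % q) (f := t)]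
    · refine sum_congr rfl fun u hu => sum_congr (filter_congr fun n _ => ?_) fun _ _ => rfl
      have hu' : u % q = u := Nat.mod_eq_of_lt (mem_range.1 (mem_filter.1 hu).1)
      unfold Nat.ModEq
      rw [hu']
    · intro n hn
      refine mem_filter.2 ⟨mem_range.2 (Nat.mod_lt _ hp.pos), ?_⟩
      have := cop hq (hA hn)
      rw [Nat.coprime_comm] at this ⊢
      unfold Nat.Coprime at this ⊢
      rw [← this, ← Nat.gcd_rec, Nat.gcd_comm]
  unfold dd
  rw [sum_sub_distrib, h1, sum_const, nsmul_eq_mul, card_cl hp, mul_div_cancel₀, sub_self]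
  have := q_pos hp
  linarith

theorem mean_exp {S : Finset ℕ} {D : ℕ → ℝ} {v : ℝ} (h1 : ∀ u ∈ S, |D u| ≤ 1)
    (h0 : ∑ u ∈ S, D u = 0) (h2 : ∑ u ∈ S, D u ^ 2 ≤ S.card * (4 * v)) :
    ∑ u ∈ S, Real.exp (D u) ≤ S.card * Real.exp (4 * v) := by
  have h3 : ∑ u ∈ S, Real.exp (D u) ≤ ∑ u ∈ S, (1 + D u + D u ^ 2) := by
    refine sum_le_sum fun u hu => ?_
    have := (abs_le.1 (Real.abs_exp_sub_one_sub_id_le (h1 u hu))).2
    linarith
  rw [sum_add_distrib, sum_add_distrib, h0, sum_const, nsmul_eq_mul, mul_one] at h3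
  have h4 := Real.add_one_le_exp (4 * v)
  have h5 := mul_le_mul_of_nonneg_left h4 (Nat.cast_nonneg (α := ℝ) S.card)
  linarith

/-- the deviation -/
noncomputable def X (l : ℕ) (t : ℕ → ℝ) (a : ℕ → ℕ) (q : ℕ) : ℝ :=
  ∑ n ∈ sur a l q, t n - wt l q * ∑ n ∈ U l, t n

/-- the sum of the variances -/
noncomputable def V (l : ℕ) (t : ℕ → ℝ) (a : ℕ → ℕ) (q : ℕ) : ℝ :=
  ∑ q' ∈ (blk l).filter (· < q), va t (sur a l q') q'

/-- the potential -/
noncomputable def E (l : ℕ) (t : ℕ → ℝ) (a : ℕ → ℕ) (q : ℕ) : ℝ :=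
  Real.exp (X l t a q / wt l q - 4 * V l t a q) + Real.exp (-(X l t a q / wt l q) - 4 * V l t a q)

/-- the mean -/
noncomputable def mb (b : ℕ → ℕ → ℝ) (q : ℕ) : ℝ :=
  1 / ((q : ℝ) - 1) * ∑ u ∈ (range q).filter (Nat.Coprime q), b q u

/-- the second potential -/
noncomputable def Bs (l : ℕ) (b : ℕ → ℕ → ℝ) (a : ℕ → ℕ) (q : ℕ) : ℝ :=
  ∑ q' ∈ (blk l).filter (· < q), b q' (a q') + ∑ q' ∈ (blk l).filter (q ≤ ·), mb b q'

section upd

variable {l q : ℕ} (a : ℕ → ℕ) (u : ℕ)

theorem upd_sur {q' : ℕ} (h : q' ≤ q) : sur (Function.update a q u) l q' = sur a l q' :=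
  sur_congr fun p hp => Function.update_of_ne (by omega) _ _

theorem X_upd (hq : q ∈ blk l) (t : ℕ → ℝ) : X l t (Function.update a q u) (q + 1) =
    (1 - 1 / ((q : ℝ) - 1)) * X l t a q - dd t (sur a l q) q u := by
  unfold X
  rw [sur_mem hq, upd_sur a u le_rfl, Function.update_self, wt_mem hq]
  have h1 := sum_filter_add_sum_filter_not (sur a l q) (fun n => n ≡ u [MOD q]) t
  unfold dd
  have h2 : ∑ n ∈ (sur a l q).filter (fun n => ¬ n ≡ u [MOD q]), t n =
      ∑ n ∈ sur a l q, t n - ∑ n ∈ (sur a l q).filter (fun n => n ≡ u [MOD q]), t n := by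
    linarith
  rw [h2]
  ring

theorem V_upd (hq : q ∈ blk l) (t : ℕ → ℝ) : V l t (Function.update a q u) (q + 1) =
    V l t a q + va t (sur a l q) q := by
  unfold V
  rw [filt_mem hq, sum_insert (not_mem_filt l q), upd_sur a u le_rfl, add_comm]
  congr 1
  exact sum_congr rfl fun q' hq' => by rw [upd_sur a u (mem_filter.1 hq').2.le]

theorem B_upd (hq : q ∈ blk l) (b : ℕ → ℕ → ℝ) : Bs l b (Function.update a q u) (q + 1) =
    Bs l b a q + b q u - mb b q := by
  unfold Bs
  rw [filt_mem hq, sum_insert (not_mem_filt l q), filt2_mem hq, sum_insert (not_mem_filt2 l q),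
    Function.update_self]
  have h : ∑ q' ∈ (blk l).filter (· < q), b q' (Function.update a q u q') =
      ∑ q' ∈ (blk l).filter (· < q), b q' (a q') :=
    sum_congr rfl fun q' hq' => by
      rw [Function.update_of_ne (mem_filter.1 hq').2.ne]
  rw [h]
  ring

end upd

theorem E_sum {l q : ℕ} (a : ℕ → ℕ) (hq : q ∈ blk l) (t : ℕ → ℝ) (hw : 1 / 2 ≤ wt l (q + 1))
    (hd : ∀ u, |dd t (sur a l q) q u| ≤ 1 / 2) :
    ∑ u ∈ cl q, E l t (Function.update a q u) (q + 1) ≤ (cl q).card * E l t a q := by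
  have hp := blk_prime hq
  have hq1 := q_pos hp
  obtain ⟨w, hwd⟩ : ∃ w, w = wt l (q + 1) := ⟨_, rfl⟩
  rw [← hwd] at hw
  have hw0 : 0 < w := by linarith
  have hww : w = (1 - 1 / ((q : ℝ) - 1)) * wt l q := by rw [hwd, wt_mem hq]
  have hne : (1 - 1 / ((q : ℝ) - 1)) ≠ 0 := by
    intro h
    rw [h, zero_mul] at hww
    exact hw0.ne' hww
  have hne2 : wt l q ≠ 0 := by
    intro h
    rw [h, mul_zero] at hww
    exact hw0.ne' hww
  have e1 : ∀ u, X l t (Function.update a q u) (q + 1) / wt l (q + 1) =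
      X l t a q / wt l q - dd t (sur a l q) q u / w := by
    intro u
    rw [X_upd a u hq t, sub_div, ← hwd, hww, mul_div_mul_left _ _ hne]
  have hD : ∀ u ∈ cl q, |dd t (sur a l q) q u / w| ≤ 1 := by
    intro u _
    rw [abs_div, abs_of_pos hw0, div_le_one hw0]
    exact (hd u).trans hw
  have hD' : ∀ u ∈ cl q, |-(dd t (sur a l q) q u / w)| ≤ 1 := by
    intro u hu
    rw [abs_neg]
    exact hD u hu
  have h0 : ∑ u ∈ cl q, dd t (sur a l q) q u / w = 0 := by
    rw [← sum_div, sum_dd hq t (sur_sub a l q), zero_div]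
  have h0' : ∑ u ∈ cl q, -(dd t (sur a l q) q u / w) = 0 := by
    rw [sum_neg_distrib, h0, neg_zero]
  have h2 : ∑ u ∈ cl q, (dd t (sur a l q) q u / w) ^ 2 ≤
      (cl q).card * (4 * va t (sur a l q) q) := by
    have h3 : ∀ u ∈ cl q, (dd t (sur a l q) q u / w) ^ 2 ≤ 4 * dd t (sur a l q) q u ^ 2 := by
      intro u _
      rw [div_pow, div_le_iff₀ (by positivity)]
      have h4 : 1 ≤ 4 * w ^ 2 := by nlinarith
      have h5 := sq_nonneg (dd t (sur a l q) q u)
      nlinarith
    refine (sum_le_sum h3).trans ?_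
    rw [card_cl hp, ← mul_sum]
    unfold va
    change 4 * ∑ u ∈ cl q, dd t (sur a l q) q u ^ 2 ≤ ((q : ℝ) - 1) *
      (4 * (1 / ((q : ℝ) - 1) * ∑ u ∈ cl q, dd t (sur a l q) q u ^ 2))
    have h6 : (q : ℝ) - 1 ≠ 0 := by linarith
    refine le_of_eq ?_
    field_simp
  have h2' : ∑ u ∈ cl q, (-(dd t (sur a l q) q u / w)) ^ 2 ≤
      (cl q).card * (4 * va t (sur a l q) q) := by
    simp only [neg_sq]
    exact h2
  have m1 := mean_exp hD h0 h2
  have m2 := mean_exp hD' h0' h2'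
  unfold E
  rw [sum_add_distrib, mul_add]
  obtain ⟨Y, hY⟩ : ∃ Y, Y = X l t a q / wt l q := ⟨_, rfl⟩
  obtain ⟨v, hv⟩ : ∃ v, v = va t (sur a l q) q := ⟨_, rfl⟩
  obtain ⟨V0, hV0⟩ : ∃ V0, V0 = V l t a q := ⟨_, rfl⟩
  have key : ∀ c : ℝ, Real.exp (c - 4 * (V0 + v)) =
      Real.exp (c - 4 * V0) * Real.exp (-(4 * v)) := by
    intro c
    rw [← Real.exp_add]
    congr 1
    ring
  have hvv : Real.exp (-(4 * v)) * Real.exp (4 * v) = 1 := by
    rw [← Real.exp_add, neg_add_cancel, Real.exp_zero]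
  rw [← hv] at m1 m2
  refine add_le_add ?_ ?_
  · have e2 : ∀ u ∈ cl q, Real.exp (X l t (Function.update a q u) (q + 1) / wt l (q + 1) -
        4 * V l t (Function.update a q u) (q + 1)) =
        (Real.exp (Y - 4 * V0) * Real.exp (-(4 * v))) *
          Real.exp (-(dd t (sur a l q) q u / w)) := by
      intro u _
      rw [e1, V_upd a u hq t, ← hY, ← hV0, ← hv, ← Real.exp_add, ← Real.exp_add]
      congr 1
      ring
    rw [sum_congr rfl e2, ← mul_sum, ← hY, ← hV0]
    have h7 := mul_le_mul_of_nonneg_left m2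
      (mul_pos (Real.exp_pos (Y - 4 * V0)) (Real.exp_pos (-(4 * v)))).le
    refine h7.trans (le_of_eq ?_)
    linear_combination ((cl q).card : ℝ) * Real.exp (Y - 4 * V0) * hvv
  · have e2 : ∀ u ∈ cl q, Real.exp (-(X l t (Function.update a q u) (q + 1) / wt l (q + 1)) -
        4 * V l t (Function.update a q u) (q + 1)) =
        (Real.exp (-Y - 4 * V0) * Real.exp (-(4 * v))) *
          Real.exp (dd t (sur a l q) q u / w) := by
      intro u _
      rw [e1, V_upd a u hq t, ← hY, ← hV0, ← hv, ← Real.exp_add, ← Real.exp_add]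
      congr 1
      ring
    rw [sum_congr rfl e2, ← mul_sum, ← hY, ← hV0]
    have h7 := mul_le_mul_of_nonneg_left m1
      (mul_pos (Real.exp_pos (-Y - 4 * V0)) (Real.exp_pos (-(4 * v)))).le
    refine h7.trans (le_of_eq ?_)
    linear_combination ((cl q).card : ℝ) * Real.exp (-Y - 4 * V0) * hvv

theorem B_sum {l q : ℕ} (a : ℕ → ℕ) (hq : q ∈ blk l) (b : ℕ → ℕ → ℝ) :
    ∑ u ∈ cl q, Bs l b (Function.update a q u) (q + 1) = (cl q).card * Bs l b a q := by
  have hp := blk_prime hq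
  have hq1 := q_pos hp
  have h1 : ∑ u ∈ cl q, Bs l b (Function.update a q u) (q + 1) =
      ∑ u ∈ cl q, (Bs l b a q - mb b q + b q u) :=
    sum_congr rfl fun u _ => by rw [B_upd a u hq b]; ring
  rw [h1, sum_add_distrib, sum_const, nsmul_eq_mul, card_cl hp]
  have h2 : ((q : ℝ) - 1) * mb b q = ∑ u ∈ cl q, b q u := by
    unfold mb
    change ((q : ℝ) - 1) * (1 / ((q : ℝ) - 1) * ∑ u ∈ cl q, b q u) = ∑ u ∈ cl q, b q u
    have h6 : (q : ℝ) - 1 ≠ 0 := by linarith
    field_simp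
  linear_combination -h2

end Gr

open Gr in
theorem gr : S_GR := by
  intro l hw J _ W t b z hW hW1 hb hz hdd hbz
  -- the potential
  obtain ⟨Φ, hΦ⟩ : ∃ Φ : (ℕ → ℕ) → ℕ → ℝ, Φ = fun a q => ∑ j, W j * E l (t j) a q + Bs l b a q / z :=
    ⟨_, rfl⟩
  have main : ∀ q : ℕ, q ≤ fin l → ∃ a : ℕ → ℕ, (∀ q' ∈ blk l, (a q').Coprime q' ∧ a q' < q') ∧
      Φ a q ≤ 3 := by
    intro q
    induction q with
    | zero =>
      intro _
      refine ⟨fun _ => 1, fun q' hq' => ⟨Nat.coprime_one_left q', (blk_prime hq').one_lt⟩, ?_⟩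
      have hE : ∀ j, E l (t j) (fun _ => 1) 0 = 2 := by
        intro j
        unfold E X V
        rw [sur_zero, wt_zero, filter_false_of_mem fun p _ => Nat.not_lt_zero p, sum_empty]
        norm_num
      have hB : Bs l b (fun _ => 1) 0 ≤ z := by
        unfold Bs
        rw [filter_false_of_mem fun p _ => Nat.not_lt_zero p, sum_empty, zero_add,
          filter_true_of_mem fun p _ => Nat.zero_le p]
        exact hbz
      rw [hΦ]
      simp only [hE]
      rw [← sum_mul]
      have h1 : Bs l b (fun _ => 1) 0 / z ≤ 1 := (div_le_one hz).2 hB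
      linarith
    | succ q ih =>
      intro hle
      obtain ⟨a, ha, hΦa⟩ := ih (Nat.le_of_succ_le hle)
      by_cases hq : q ∈ blk l
      · have hp := blk_prime hq
        have hcl : (cl q).Nonempty := by
          refine card_pos.1 ?_
          have h : (cl q).card = q - 1 := Nat.totient_prime hp
          rw [h]
          have := hp.two_le
          omega
        have hw' : 1 / 2 ≤ wt l (q + 1) := hw.trans (wt_anti l hle)
        have hsum : ∑ u ∈ cl q, Φ (Function.update a q u) (q + 1) ≤ ∑ _u ∈ cl q, (3 : ℝ) := by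
          rw [sum_const, nsmul_eq_mul]
          have h1 : ∑ u ∈ cl q, Φ (Function.update a q u) (q + 1) ≤ (cl q).card * Φ a q := by
            rw [hΦ]
            simp only
            rw [sum_add_distrib, sum_comm, ← sum_div, B_sum a hq b, mul_add, mul_sum]
            refine add_le_add (sum_le_sum fun j _ => ?_) (le_of_eq (by ring))
            rw [← mul_sum]
            have h2 := mul_le_mul_of_nonneg_left (E_sum a hq (t j) hw'
              (fun u => hdd j _ (sur_sub a l q) q hq u)) (hW j).le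
            refine h2.trans (le_of_eq (by ring))
          exact h1.trans (mul_le_mul_of_nonneg_left hΦa (Nat.cast_nonneg _))
        obtain ⟨u, hu, hu3⟩ := exists_le_of_sum_le hcl hsum
        refine ⟨Function.update a q u, fun q' hq' => ?_, hu3⟩
        by_cases hqq : q' = q
        · rw [hqq, Function.update_self]
          have h3 := mem_filter.1 hu
          exact ⟨Nat.coprime_comm.1 h3.2, mem_range.1 h3.1⟩
        · rw [Function.update_of_ne hqq]
          exact ha q' hq'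
      · refine ⟨a, ha, ?_⟩
        have h1 : Φ a (q + 1) = Φ a q := by
          rw [hΦ]
          beta_reduce
          unfold E X V Bs
          rw [filt_not hq, sur_not hq, wt_not hq, filt2_not hq]
        rw [h1]
        exact hΦa
  obtain ⟨a, ha, h3⟩ := main (fin l) le_rfl
  have hfl : (blk l).filter (· < fin l) = blk l :=
    filter_true_of_mem fun p hp => Nat.lt_succ_of_le (blk_bd hp).2
  have hfl2 : (blk l).filter (fin l ≤ ·) = ∅ :=
    filter_false_of_mem fun p hp => not_le.2 (Nat.lt_succ_of_le (blk_bd hp).2)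
  have hV : ∀ j, V l (t j) a (fin l) = ∑ q ∈ blk l, va (t j) (sur a l q) q := by
    intro j
    unfold V
    rw [hfl]
  have hB : Bs l b a (fin l) = ∑ q ∈ blk l, b q (a q) := by
    unfold Bs
    rw [hfl, hfl2, sum_empty, add_zero]
  have hB0 : 0 ≤ Bs l b a (fin l) := by
    rw [hB]
    exact sum_nonneg fun q _ => hb q _
  have hE0 : ∀ j, 0 ≤ W j * E l (t j) a (fin l) := fun j =>
    mul_nonneg (hW j).le (add_pos (Real.exp_pos _) (Real.exp_pos _)).le
  rw [hΦ] at h3
  simp only at h3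
  refine ⟨a, ha, fun j => ?_, ?_⟩
  · have h4 : W j * E l (t j) a (fin l) ≤ 3 := by
      have h5 := single_le_sum (f := fun j => W j * E l (t j) a (fin l)) (fun j _ => hE0 j)
        (mem_univ j)
      have h6 : 0 ≤ Bs l b a (fin l) / z := div_nonneg hB0 hz.le
      linarith
    have hw0 : 0 < wt l (fin l) := by linarith
    obtain ⟨Y, hY⟩ : ∃ Y, Y = X l (t j) a (fin l) / wt l (fin l) := ⟨_, rfl⟩
    have h7 : Real.exp (|Y| - 4 * V l (t j) a (fin l)) ≤ E l (t j) a (fin l) := by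
      unfold E
      rw [← hY]
      rcases abs_cases Y with ⟨h, _⟩ | ⟨h, _⟩
      · rw [h]
        exact le_add_of_nonneg_right (Real.exp_pos _).le
      · rw [h]
        exact le_add_of_nonneg_left (Real.exp_pos _).le
    have h8 : Real.exp (|Y| - 4 * V l (t j) a (fin l)) ≤ 3 / W j := by
      rw [le_div_iff₀ (hW j)]
      have := mul_le_mul_of_nonneg_left h7 (hW j).le
      linarith
    have h9 : |Y| - 4 * V l (t j) a (fin l) ≤ Real.log 3 + Real.log (1 / W j) := by
      have h10 : |Y| - 4 * V l (t j) a (fin l) ≤ Real.log (3 / W j) :=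
        (Real.le_log_iff_exp_le (by have := hW j; positivity)).2 h8
      rw [← Real.log_mul (by norm_num) (by have := hW j; positivity), mul_one_div]
      exact h10
    have h11 : |X l (t j) a (fin l)| ≤ |Y| := by
      rw [hY, abs_div, abs_of_pos hw0, le_div_iff₀ hw0]
      exact mul_le_of_le_one_right (abs_nonneg _) (wt_le_one l _)
    rw [← hV j]
    unfold X at h11
    linarith
  · rw [← hB]
    have h5 : 0 ≤ ∑ j, W j * E l (t j) a (fin l) := sum_nonneg fun j _ => hE0 j
    have h6 : Bs l b a (fin l) / z ≤ 3 := by linarith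
    rwa [div_le_iff₀ hz] at h6

end Pool.Agent.H414.GL
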