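import Pool.Agent.H414.GL.Spec
import Pool.Agent.H414.GE.Ls

/-!
# The large sieve for classes (project GL)
-/

set_option autoImplicit false

namespace Pool.Agent.H414.GL

open Finset
open Pool.Agent.H414.LT (primesUpTo blk kk)

namespace Lv

/-- the real `dd` as the norm of a complex number -/
theorem dd_sq (t : ℕ → ℝ) (A : Finset ℕ) (q u : ℕ) :
    dd t A q u ^ 2 = ‖∑ n ∈ A.filter (fun n => n ≡ u [MOD q]), ((t n : ℝ) : ℂ) -
      (∑ n ∈ A, ((t n : ℝ) : ℂ)) / ((q : ℂ) - 1)‖ ^ 2 := by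
  have h1 : ∑ n ∈ A.filter (fun n => n ≡ u [MOD q]), ((t n : ℝ) : ℂ) -
      (∑ n ∈ A, ((t n : ℝ) : ℂ)) / ((q : ℂ) - 1) = ((dd t A q u : ℝ) : ℂ) := by
    unfold dd
    push_cast
    rfl
  rw [h1, Complex.norm_real, Real.norm_eq_abs, sq_abs]

end Lv

open Lv in
/-- the large sieve for classes -/
theorem lv (hLSA : GE.S_LSA) : S_LV := by
  obtain ⟨C, hC, hLS⟩ := hLSA
  refine ⟨4 * C, by positivity, fun l y t A hA hy => ?_⟩
  obtain ⟨c', hc'⟩ : ∃ c' : ℕ → ℂ, ∀ n, c' n = if n ∈ A then ((t n : ℝ) : ℂ) else 0 :=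
    ⟨_, fun _ => rfl⟩
  have h1 := hLS (2 ^ (l + 1)) y 0 c'
  rw [zero_add] at h1
  have hAy : A ⊆ Ioc 0 y := by
    intro n hn
    rw [mem_Ioc]
    refine ⟨?_, hy n hn⟩
    have h2 := hA hn
    unfold U at h2
    rw [mem_filter] at h2
    exact h2.2.pos
  have hfil : (Ioc 0 y).filter (· ∈ A) = A := by
    ext n
    rw [mem_filter]
    exact ⟨fun h => h.2, fun h => ⟨hAy h, h⟩⟩
  -- the sums over `A`
  have hF : ∀ (q b : ℕ), ∑ n ∈ Ioc 0 y,
      c' n * Complex.exp (2 * Real.pi * Complex.I * (b * n / q)) =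
      ∑ n ∈ A, ((t n : ℝ) : ℂ) * (Complex.exp (2 * Real.pi * Complex.I / q) ^ n) ^ b := by
    intro q b
    have h3 : ∀ n ∈ Ioc 0 y, c' n * Complex.exp (2 * Real.pi * Complex.I * (b * n / q)) =
        if n ∈ A then ((t n : ℝ) : ℂ) * (Complex.exp (2 * Real.pi * Complex.I / q) ^ n) ^ b
        else 0 := by
      intro n _
      rw [hc', ← Complex.exp_nat_mul, ← Complex.exp_nat_mul]
      split_ifs
      · congr 2
        ring
      · rw [zero_mul]
    rw [sum_congr rfl h3, ← sum_filter, hfil]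
  simp only [hF] at h1
  -- the second moment
  have hN : ∑ n ∈ Ioc 0 y, ‖c' n‖ ^ 2 = ∑ n ∈ A, t n ^ 2 := by
    have h2 : ∀ n ∈ Ioc 0 y, ‖c' n‖ ^ 2 = if n ∈ A then t n ^ 2 else 0 := by
      intro n _
      rw [hc']
      split_ifs
      · rw [Complex.norm_real, Real.norm_eq_abs, sq_abs]
      · rw [norm_zero]
        norm_num
    rw [sum_congr rfl h2, ← sum_filter, hfil]
  rw [hN] at h1
  obtain ⟨T, hT⟩ : ∃ T : ℕ → ℝ, ∀ q, T q = ∑ b ∈ Icc 1 (q - 1),
      ‖∑ n ∈ A, ((t n : ℝ) : ℂ) * (Complex.exp (2 * Real.pi * Complex.I / q) ^ n) ^ b‖ ^ 2 :=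
    ⟨_, fun _ => rfl⟩
  simp only [← hT] at h1
  have hT0 : ∀ q, 0 ≤ T q := fun q => by
    rw [hT]
    positivity
  have h4l : (0 : ℝ) < 4 ^ l := by positivity
  -- one modulus
  have hone : ∀ q ∈ blk l, va t A q ≤ 1 / 4 ^ l * T q := by
    intro q hq
    unfold blk at hq
    rw [mem_filter, mem_Ioc] at hq
    obtain ⟨⟨hq1, hq2⟩, hqp⟩ := hq
    have hB : ∀ n ∈ A, ¬ q ∣ n := by
      intro n hn hd
      have h2 := hA hn
      unfold U at h2
      rw [mem_filter, mem_Ioc] at h2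
      have h5 : q = n := (Nat.prime_dvd_prime_iff_eq hqp h2.2).1 hd
      omega
    have h5 := GE.Ls.one_mod hqp A hB (fun n => ((t n : ℝ) : ℂ))
    rw [← hT] at h5
    have hq3 : (2 : ℝ) ^ l ≤ (q : ℝ) - 1 := by
      have h6 : 2 ^ l + 1 ≤ q := hq1
      have h7 : ((2 ^ l + 1 : ℕ) : ℝ) ≤ q := by exact_mod_cast h6
      push_cast at h7
      linarith
    have h2l : (0 : ℝ) < 2 ^ l := by positivity
    have hq4 : (0 : ℝ) < (q : ℝ) - 1 := by linarith
    have hq5 : (0 : ℝ) < q := by linarith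
    unfold va
    simp only [dd_sq]
    calc 1 / ((q : ℝ) - 1) * ∑ u ∈ (range q).filter (Nat.Coprime q),
          ‖∑ n ∈ A.filter (fun n => n ≡ u [MOD q]), ((t n : ℝ) : ℂ) -
            (∑ n ∈ A, ((t n : ℝ) : ℂ)) / ((q : ℂ) - 1)‖ ^ 2
        ≤ 1 / ((q : ℝ) - 1) * (1 / (q : ℝ) * T q) :=
          mul_le_mul_of_nonneg_left h5 (by positivity)
      _ = 1 / (((q : ℝ) - 1) * q) * T q := by
          rw [← mul_assoc, one_div_mul_one_div]
      _ ≤ 1 / 4 ^ l * T q := by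
          refine mul_le_mul_of_nonneg_right ?_ (hT0 q)
          refine one_div_le_one_div_of_le h4l ?_
          have h8 : (4 : ℝ) ^ l = 2 ^ l * 2 ^ l := by
            rw [← mul_pow]
            norm_num
          rw [h8]
          exact mul_le_mul hq3 (by linarith) h2l.le hq4.le
  have hsub : blk l ⊆ (Icc 1 (2 ^ (l + 1))).filter Nat.Prime := by
    intro q hq
    unfold blk at hq
    rw [mem_filter, mem_Ioc] at hq
    rw [mem_filter, mem_Icc]
    exact ⟨⟨hq.2.one_le, hq.1.2⟩, hq.2⟩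
  have hS0 : 0 ≤ ∑ n ∈ A, t n ^ 2 := by positivity
  calc ∑ q ∈ blk l, va t A q
      ≤ ∑ q ∈ blk l, 1 / 4 ^ l * T q := sum_le_sum hone
    _ = 1 / 4 ^ l * ∑ q ∈ blk l, T q := by rw [mul_sum]
    _ ≤ 1 / 4 ^ l * ∑ q ∈ (Icc 1 (2 ^ (l + 1))).filter Nat.Prime, T q := by
        refine mul_le_mul_of_nonneg_left ?_ (by positivity)
        exact sum_le_sum_of_subset_of_nonneg hsub fun q _ _ => hT0 q
    _ ≤ 1 / 4 ^ l * (C * ((y : ℝ) + (2 ^ (l + 1)) ^ 2) * ∑ n ∈ A, t n ^ 2) := by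
        refine mul_le_mul_of_nonneg_left ?_ (by positivity)
        have h9 := h1
        push_cast at h9
        exact h9
    _ = C * ((y : ℝ) / 4 ^ l + 4) * ∑ n ∈ A, t n ^ 2 := by
        have h8 : ((2 : ℝ) ^ (l + 1)) ^ 2 = 4 * 4 ^ l := by
          rw [← pow_mul, pow_mul', pow_succ]
          norm_num
          ring
        rw [h8]
        field_simp
    _ ≤ 4 * C * ((y : ℝ) / 4 ^ l + 1) * ∑ n ∈ A, t n ^ 2 := by
        refine mul_le_mul_of_nonneg_right ?_ hS0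
        have h9 : (0 : ℝ) ≤ (y : ℝ) / 4 ^ l := by positivity
        nlinarith

end Pool.Agent.H414.GL
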