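import Pool.Agent.H414.GL.Spec

/-! The maximal large sieve inequality (Rademacher-Menshov). -/

set_option autoImplicit false

namespace Pool.Agent.H414.GL

open Finset
open Pool.Agent.H414.LT (primesUpTo blk kk)

namespace Ml

theorem dd_eq (t : ℕ → ℝ) (A : Finset ℕ) (q u : ℕ) :
    dd t A q u = ∑ n ∈ A, t n * ((if n ≡ u [MOD q] then 1 else 0) - 1 / ((q : ℝ) - 1)) := by
  unfold dd
  rw [Finset.sum_filter, Finset.sum_div, ← Finset.sum_sub_distrib]
  refine Finset.sum_congr rfl fun n _ => ?_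
  split_ifs <;> ring

theorem dd_filter {t : ℕ → ℝ} {y : ℕ} (ht : ∀ n, y < n → t n = 0) (A : Finset ℕ) (q u : ℕ) :
    dd t A q u = dd t (A.filter (· ≤ y)) q u := by
  rw [dd_eq, dd_eq, Finset.sum_filter]
  refine Finset.sum_congr rfl fun n _ => ?_
  by_cases h : n ≤ y
  · rw [if_pos h]
  · rw [if_neg h, ht n (not_le.1 h), zero_mul]

theorem va_filter {t : ℕ → ℝ} {y : ℕ} (ht : ∀ n, y < n → t n = 0) (A : Finset ℕ) (q : ℕ) :
    va t A q = va t (A.filter (· ≤ y)) q := by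
  unfold va
  rw [Finset.sum_congr rfl fun u _ => by rw [dd_filter ht A q u]]

theorem va_nonneg {t : ℕ → ℝ} {A : Finset ℕ} {q : ℕ} (hq : 2 ≤ q) : 0 ≤ va t A q := by
  have h1 : (2 : ℝ) ≤ q := by exact_mod_cast hq
  unfold va
  exact mul_nonneg (one_div_nonneg.2 (by linarith)) (Finset.sum_nonneg fun _ _ => sq_nonneg _)

theorem va_empty (t : ℕ → ℝ) (q : ℕ) : va t ∅ q = 0 := by
  unfold va
  simp [dd_eq]

theorem half (M i : ℕ) : 2 ^ (i + 1) * (M / 2 ^ (i + 1)) = 2 ^ i * (2 * (M / 2 ^ i / 2)) := by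
  rw [Nat.div_div_eq_div_mul, ← pow_succ, pow_succ]
  ring

/-- telescoping -/
theorem tele (V : Finset ℕ) (x : ℕ → ℕ) (g : ℕ → ℝ) (M L : ℕ) (hM : M < 2 ^ L) :
    ∑ n ∈ V.filter (fun n => x n < M), g n =
      ∑ i ∈ range L, ∑ n ∈ V.filter (fun n => 2 ^ (i + 1) * (M / 2 ^ (i + 1)) ≤ x n ∧
        x n < 2 ^ i * (M / 2 ^ i)), g n := by
  have h1 : ∀ i, ∑ n ∈ V.filter (fun n => 2 ^ (i + 1) * (M / 2 ^ (i + 1)) ≤ x n ∧
      x n < 2 ^ i * (M / 2 ^ i)), g n =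
      ∑ n ∈ V.filter (fun n => x n < 2 ^ i * (M / 2 ^ i)), g n -
        ∑ n ∈ V.filter (fun n => x n < 2 ^ (i + 1) * (M / 2 ^ (i + 1))), g n := by
    intro i
    have hle : 2 ^ (i + 1) * (M / 2 ^ (i + 1)) ≤ 2 ^ i * (M / 2 ^ i) := by
      rw [half]
      exact Nat.mul_le_mul_left _ (by omega)
    rw [eq_sub_iff_add_eq, ← Finset.sum_union]
    · refine Finset.sum_congr ?_ fun _ _ => rfl
      ext n
      simp only [mem_union, mem_filter]
      constructor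
      · rintro (⟨h2, h3, h4⟩ | ⟨h2, h3⟩)
        · exact ⟨h2, h4⟩
        · exact ⟨h2, h3.trans_le hle⟩
      · rintro ⟨h2, h3⟩
        by_cases h4 : 2 ^ (i + 1) * (M / 2 ^ (i + 1)) ≤ x n
        · exact Or.inl ⟨h2, h4, h3⟩
        · exact Or.inr ⟨h2, not_le.1 h4⟩
    · rw [Finset.disjoint_left]
      intro n h2 h3
      rw [mem_filter] at h2 h3
      exact absurd h3.2 (not_lt.2 h2.2.1)
  rw [Finset.sum_congr rfl fun i _ => h1 i, Finset.sum_range_sub']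
  have h2 : V.filter (fun n => x n < 2 ^ L * (M / 2 ^ L)) = ∅ := by
    rw [Nat.div_eq_of_lt hM, Nat.mul_zero]
    exact Finset.filter_false_of_mem fun _ _ => Nat.not_lt_zero _
  rw [h2, Finset.sum_empty, sub_zero, pow_zero, Nat.div_one, Nat.one_mul]

theorem step (t : ℕ → ℝ) (V : Finset ℕ) (x : ℕ → ℕ) {M H q : ℕ} (hq : 2 ≤ q) (hH : M ≤ H) (i : ℕ) :
    va t (V.filter (fun n => 2 ^ (i + 1) * (M / 2 ^ (i + 1)) ≤ x n ∧ x n < 2 ^ i * (M / 2 ^ i))) q ≤
      ∑ h ∈ range H, va t (V.filter fun n => x n / 2 ^ i = h) q := by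
  have h0 : ∀ h ∈ range H, 0 ≤ va t (V.filter fun n => x n / 2 ^ i = h) q :=
    fun h _ => va_nonneg hq
  obtain ⟨m, hm⟩ : ∃ m, m = M / 2 ^ i := ⟨_, rfl⟩
  have hmM : m ≤ M := by
    rw [hm]
    exact Nat.div_le_self _ _
  have h1 : V.filter (fun n => 2 ^ (i + 1) * (M / 2 ^ (i + 1)) ≤ x n ∧ x n < 2 ^ i * (M / 2 ^ i)) =
      V.filter (fun n => 2 * (m / 2) ≤ x n / 2 ^ i ∧ x n / 2 ^ i < m) := by
    refine Finset.filter_congr fun n _ => ?_
    rw [half, ← hm, Nat.le_div_iff_mul_le (by positivity), Nat.div_lt_iff_lt_mul (by positivity),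
      Nat.mul_comm (2 ^ i), Nat.mul_comm (2 ^ i)]
  rw [h1]
  rcases Nat.even_or_odd m with h2 | h2
  · have h3 : V.filter (fun n => 2 * (m / 2) ≤ x n / 2 ^ i ∧ x n / 2 ^ i < m) = ∅ := by
      refine Finset.filter_false_of_mem fun n _ => ?_
      obtain ⟨r, hr⟩ := h2
      omega
    rw [h3, va_empty]
    exact Finset.sum_nonneg h0
  · have h3 : V.filter (fun n => 2 * (m / 2) ≤ x n / 2 ^ i ∧ x n / 2 ^ i < m) =
        V.filter (fun n => x n / 2 ^ i = 2 * (m / 2)) := by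
      refine Finset.filter_congr fun n _ => ?_
      obtain ⟨r, hr⟩ := h2
      omega
    rw [h3]
    refine Finset.single_le_sum (f := fun h => va t (V.filter fun n => x n / 2 ^ i = h) q) h0 ?_
    rw [mem_range]
    obtain ⟨r, hr⟩ := h2
    omega

theorem va_le (t : ℕ → ℝ) (V : Finset ℕ) (x : ℕ → ℕ) {M L H q : ℕ} (hq : 2 ≤ q) (hM : M < 2 ^ L)
    (hH : M ≤ H) : va t (V.filter (fun n => x n < M)) q ≤
      L * ∑ i ∈ range L, ∑ h ∈ range H, va t (V.filter fun n => x n / 2 ^ i = h) q := by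
  have hq1 : (2 : ℝ) ≤ q := by exact_mod_cast hq
  have hq0 : 0 ≤ 1 / ((q : ℝ) - 1) := one_div_nonneg.2 (by linarith)
  have h1 : va t (V.filter (fun n => x n < M)) q ≤ L * ∑ i ∈ range L,
      va t (V.filter (fun n => 2 ^ (i + 1) * (M / 2 ^ (i + 1)) ≤ x n ∧
        x n < 2 ^ i * (M / 2 ^ i))) q := by
    unfold va
    rw [← Finset.mul_sum, ← mul_assoc, mul_comm (L : ℝ), mul_assoc]
    refine mul_le_mul_of_nonneg_left ?_ hq0
    rw [Finset.sum_comm, Finset.mul_sum]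
    refine Finset.sum_le_sum fun u _ => ?_
    rw [dd_eq, tele V x _ M L hM]
    simp only [dd_eq]
    have h2 := sq_sum_le_card_mul_sum_sq (s := range L) (f := fun i =>
      ∑ n ∈ V.filter (fun n => 2 ^ (i + 1) * (M / 2 ^ (i + 1)) ≤ x n ∧ x n < 2 ^ i * (M / 2 ^ i)),
        t n * ((if n ≡ u [MOD q] then 1 else 0) - 1 / ((q : ℝ) - 1)))
    rw [card_range] at h2
    exact h2
  refine h1.trans (mul_le_mul_of_nonneg_left ?_ (Nat.cast_nonneg _))
  exact Finset.sum_le_sum fun i _ => step t V x hq hH i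

/-- the time -/
def tm (a : ℕ → ℕ) (l n : ℕ) : ℕ :=
  ((blk l).filter fun q => n ≡ a q [MOD q]).sup fun q => 2 ^ (l + 1) + 1 - q

theorem blk_bd {l q : ℕ} (hq : q ∈ blk l) : 2 ^ l < q ∧ q ≤ 2 ^ (l + 1) ∧ q.Prime := by
  unfold blk at hq
  rw [mem_filter, mem_Ioc] at hq
  exact ⟨hq.1.1, hq.1.2, hq.2⟩

theorem sur_eq (a : ℕ → ℕ) {l q : ℕ} (hq : q ∈ blk l) :
    sur a l q = (U l).filter fun n => tm a l n < 2 ^ (l + 1) + 2 - q := by
  unfold sur
  refine Finset.filter_congr fun n _ => ?_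
  have h1 := (blk_bd hq).2.1
  have h2 : tm a l n < 2 ^ (l + 1) + 2 - q ↔ tm a l n ≤ 2 ^ (l + 1) + 1 - q := by omega
  rw [h2, tm, Finset.sup_le_iff]
  constructor
  · intro h q' hq'
    rw [mem_filter] at hq'
    have h3 : ¬ q' < q := fun h3 => h q' hq'.1 h3 hq'.2
    omega
  · intro h q' hq' h3 h4
    have h5 := h q' (mem_filter.2 ⟨hq', h4⟩)
    have h6 := (blk_bd hq').2.1
    omega

theorem tm_le (a : ℕ → ℕ) (l n : ℕ) : tm a l n ≤ 2 ^ (l + 1) + 1 :=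
  Finset.sup_le fun _ _ => Nat.sub_le _ _

end Ml

/-- the maximal large sieve inequality -/
theorem ml (hLV : S_LV) : S_ML := by
  obtain ⟨C, hC, h⟩ := hLV
  refine ⟨C, hC, fun l y t a ht => ?_⟩
  obtain ⟨V, hV⟩ : ∃ V, V = (U l).filter (· ≤ y) := ⟨_, rfl⟩
  obtain ⟨H, hH⟩ : ∃ H, H = 2 ^ (l + 1) + 3 := ⟨_, rfl⟩
  have hy0 : 0 ≤ C * ((y : ℝ) / 4 ^ l + 1) := by positivity
  have h1 : ∀ q ∈ blk l, va t (sur a l q) q ≤ ((l + 2 : ℕ) : ℝ) * ∑ i ∈ range (l + 2),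
      ∑ h ∈ range H, va t (V.filter fun n => Ml.tm a l n / 2 ^ i = h) q := by
    intro q hq
    obtain ⟨h2, h3, h4⟩ := Ml.blk_bd hq
    rw [Ml.va_filter ht, Ml.sur_eq a hq, Finset.filter_comm, ← hV]
    refine Ml.va_le t V (Ml.tm a l) h4.two_le ?_ (by omega)
    have h5 : 2 ^ (l + 1) = 2 * 2 ^ l := by ring
    have h6 : 2 ^ (l + 2) = 4 * 2 ^ l := by ring
    have h7 : 1 ≤ 2 ^ l := Nat.one_le_two_pow
    omega
  refine (Finset.sum_le_sum h1).trans ?_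
  rw [← Finset.mul_sum, Finset.sum_comm]
  have h2 : ∀ i ∈ range (l + 2), ∑ q ∈ blk l, ∑ h ∈ range H,
      va t (V.filter fun n => Ml.tm a l n / 2 ^ i = h) q ≤
      C * ((y : ℝ) / 4 ^ l + 1) * ∑ n ∈ U l, t n ^ 2 := by
    intro i _
    rw [Finset.sum_comm]
    have h3 : ∀ h' ∈ range H, ∑ q ∈ blk l, va t (V.filter fun n => Ml.tm a l n / 2 ^ i = h') q ≤
        C * ((y : ℝ) / 4 ^ l + 1) * ∑ n ∈ V.filter (fun n => Ml.tm a l n / 2 ^ i = h'), t n ^ 2 := by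
      intro h' _
      refine h l y t _ (fun n hn => ?_) fun n hn => ?_
      · rw [hV] at hn
        exact (mem_filter.1 (mem_filter.1 hn).1).1
      · rw [hV] at hn
        exact (mem_filter.1 (mem_filter.1 hn).1).2
    refine (Finset.sum_le_sum h3).trans ?_
    rw [← Finset.mul_sum, Finset.sum_fiberwise_of_maps_to]
    · refine mul_le_mul_of_nonneg_left ?_ hy0
      rw [hV]
      exact Finset.sum_le_sum_of_subset_of_nonneg (Finset.filter_subset _ _)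
        fun _ _ _ => sq_nonneg _
    · intro n _
      rw [mem_range, hH]
      have h4 := Ml.tm_le a l n
      have h5 := Nat.div_le_self (Ml.tm a l n) (2 ^ i)
      omega
  refine (mul_le_mul_of_nonneg_left (Finset.sum_le_sum h2) (Nat.cast_nonneg _)).trans ?_
  rw [Finset.sum_const, card_range, nsmul_eq_mul]
  push_cast
  exact le_of_eq (by ring)

end Pool.Agent.H414.GL
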