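import Pool.Agent.H414.GL.Spec

/-! Project GL, part Sc (helper396): one scale. -/

set_option autoImplicit false

namespace Pool.Agent.H414.GL

open Finset
open Pool.Agent.H414.LT (primesUpTo blk kk)

namespace Sc

theorem mem_U {l n : ℕ} (h : n ∈ U l) : 1 ≤ n ∧ n ≤ 4 ^ (l + 1) := by
  unfold U at h
  rw [mem_filter, mem_Ioc] at h
  exact ⟨Nat.one_le_of_lt h.1.1, h.1.2⟩

theorem q_bd {l q : ℕ} (hq : q ∈ blk l) : (2 : ℝ) ^ l ≤ (q : ℝ) - 1 := by
  unfold blk at hq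
  rw [mem_filter, mem_Ioc] at hq
  have h1 : 2 ^ l + 1 ≤ q := hq.1.1
  have h2 : ((2 ^ l + 1 : ℕ) : ℝ) ≤ q := by exact_mod_cast h1
  push_cast at h2
  linarith

theorem sum_bd (t : ℕ → ℝ) (y : ℕ) (r : ℝ) (ht : ∀ n, |t n| ≤ if n ≤ y then r else 0)
    (B : Finset ℕ) : |∑ n ∈ B, t n| ≤ ((B.filter (· ≤ y)).card : ℝ) * r := by
  calc |∑ n ∈ B, t n| ≤ ∑ n ∈ B, |t n| := abs_sum_le_sum_abs _ _
    _ ≤ ∑ n ∈ B, (if n ≤ y then r else 0) := sum_le_sum fun n _ => ht n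
    _ = ((B.filter (· ≤ y)).card : ℝ) * r := by rw [← sum_filter, sum_const, nsmul_eq_mul]

theorem card_cls (y q u : ℕ) (hq : 0 < q) (A : Finset ℕ) :
    (((A.filter (fun n => n ≡ u [MOD q])).filter (· ≤ y)).card : ℝ) ≤ (y : ℝ) / q + 2 := by
  have h1 : ((A.filter (fun n => n ≡ u [MOD q])).filter (· ≤ y)) ⊆
      (range (y + 1)).filter (fun n => n ≡ u [MOD q]) := by
    intro n hn
    rw [mem_filter, mem_filter] at hn
    rw [mem_filter, mem_range]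
    exact ⟨by omega, hn.1.2⟩
  have h2 := card_le_card h1
  rw [← Nat.count_eq_card_filter_range, Nat.count_modEq_card _ hq] at h2
  have h3 : ((A.filter (fun n => n ≡ u [MOD q])).filter (· ≤ y)).card ≤ (y + 1) / q + 1 := by
    refine h2.trans ?_
    split_ifs <;> omega
  have h4 : (((A.filter (fun n => n ≡ u [MOD q])).filter (· ≤ y)).card : ℝ) ≤
      (((y + 1) / q : ℕ) : ℝ) + 1 := by exact_mod_cast h3
  have h5 : (((y + 1) / q : ℕ) : ℝ) ≤ ((y + 1 : ℕ) : ℝ) / (q : ℝ) := Nat.cast_div_le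
  have hq1 : (1 : ℝ) ≤ q := by exact_mod_cast hq
  have h6 : ((y + 1 : ℕ) : ℝ) / (q : ℝ) ≤ (y : ℝ) / q + 1 := by
    push_cast
    rw [add_div]
    have : (1 : ℝ) / q ≤ 1 := by rw [div_le_one (by linarith)]; exact hq1
    linarith
  linarith

theorem card_y (y : ℕ) {l : ℕ} {A : Finset ℕ} (hA : A ⊆ U l) :
    ((A.filter (· ≤ y)).card : ℝ) ≤ y := by
  have h1 : A.filter (· ≤ y) ⊆ Icc 1 y := by
    intro n hn
    rw [mem_filter] at hn
    rw [mem_Icc]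
    exact ⟨(mem_U (hA hn.1)).1, hn.2⟩
  have h2 := card_le_card h1
  rw [Nat.card_Icc] at h2
  have h3 : (A.filter (· ≤ y)).card ≤ y := by omega
  exact_mod_cast h3

theorem sqrt_le {l y : ℕ} (hy : y ≤ 4 ^ (l + 1)) : √(y : ℝ) ≤ 2 ^ (l + 1) := by
  have h1 : (y : ℝ) ≤ 4 ^ (l + 1) := by exact_mod_cast hy
  refine Real.sqrt_le_iff.2 ⟨by positivity, h1.trans (le_of_eq ?_)⟩
  rw [← pow_mul, mul_comm, pow_mul]
  norm_num

theorem dd_bd {l q u y : ℕ} (t : ℕ → ℝ) (r : ℝ) (hr : 0 ≤ r)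
    (ht : ∀ n, |t n| ≤ if n ≤ y then r else 0) {A : Finset ℕ} (hA : A ⊆ U l) (hq : q ∈ blk l)
    (hy1 : 1 ≤ y) (hy : y ≤ 4 ^ (l + 1)) : |dd t A q u| ≤ 6 * √(y : ℝ) * r := by
  have hq1 := q_bd hq
  have h2l : (0 : ℝ) < 2 ^ l := by positivity
  have hq0 : (0 : ℝ) < (q : ℝ) - 1 := by linarith
  have hqn : 0 < q := by
    have : (0 : ℝ) < q := by linarith
    exact_mod_cast this
  have hs1 : 1 ≤ √(y : ℝ) := by
    rw [Real.one_le_sqrt]
    exact_mod_cast hy1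
  have hs2 := sqrt_le hy
  have hyy : (y : ℝ) = √(y : ℝ) * √(y : ℝ) := (Real.mul_self_sqrt (Nat.cast_nonneg _)).symm
  have hy2 : (y : ℝ) ≤ 2 * √(y : ℝ) * 2 ^ l := by
    calc (y : ℝ) = √(y : ℝ) * √(y : ℝ) := hyy
      _ ≤ √(y : ℝ) * 2 ^ (l + 1) := mul_le_mul_of_nonneg_left hs2 (Real.sqrt_nonneg _)
      _ = 2 * √(y : ℝ) * 2 ^ l := by ring
  have hyq : (y : ℝ) / 2 ^ l ≤ 2 * √(y : ℝ) := by
    rw [div_le_iff₀ h2l]
    exact hy2
  unfold dd
  have e1 := sum_bd t y r ht (A.filter (fun n => n ≡ u [MOD q]))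
  have e2 := card_cls y q u hqn A
  have e3 := sum_bd t y r ht A
  have e4 := card_y y hA
  have e5 : (y : ℝ) / q ≤ 2 * √(y : ℝ) :=
    (div_le_div_of_nonneg_left (Nat.cast_nonneg _) h2l (by linarith)).trans hyq
  have e6 : |(∑ n ∈ A, t n) / ((q : ℝ) - 1)| ≤ 2 * √(y : ℝ) * r := by
    rw [abs_div, abs_of_pos hq0, div_le_iff₀ hq0]
    calc |∑ n ∈ A, t n| ≤ ((A.filter (· ≤ y)).card : ℝ) * r := e3
      _ ≤ (2 * √(y : ℝ) * 2 ^ l) * r := mul_le_mul_of_nonneg_right (e4.trans hy2) hr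
      _ = 2 * √(y : ℝ) * r * 2 ^ l := by ring
      _ ≤ 2 * √(y : ℝ) * r * ((q : ℝ) - 1) := mul_le_mul_of_nonneg_left hq1 (by positivity)
  have e7 : |∑ n ∈ A.filter (fun n => n ≡ u [MOD q]), t n| ≤ 4 * √(y : ℝ) * r := by
    refine e1.trans (mul_le_mul_of_nonneg_right ?_ hr)
    linarith
  calc |∑ n ∈ A.filter (fun n => n ≡ u [MOD q]), t n - (∑ n ∈ A, t n) / ((q : ℝ) - 1)|
      ≤ |∑ n ∈ A.filter (fun n => n ≡ u [MOD q]), t n| + |(∑ n ∈ A, t n) / ((q : ℝ) - 1)| :=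
        abs_sub _ _
    _ ≤ 6 * √(y : ℝ) * r := by linarith

theorem sq_bd {l y : ℕ} (t : ℕ → ℝ) (r : ℝ) (ht : ∀ n, |t n| ≤ if n ≤ y then r else 0) :
    ∑ n ∈ U l, t n ^ 2 ≤ y * r ^ 2 := by
  have h1 : ∀ n ∈ U l, t n ^ 2 ≤ if n ≤ y then r ^ 2 else 0 := by
    intro n _
    rw [← sq_abs]
    have h2 := ht n
    have h3 := abs_nonneg (t n)
    split_ifs with h
    · rw [if_pos h] at h2
      exact pow_le_pow_left₀ h3 h2 2
    · rw [if_neg h] at h2
      have : |t n| = 0 := le_antisymm h2 h3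
      rw [this]
      norm_num
  calc ∑ n ∈ U l, t n ^ 2 ≤ ∑ n ∈ U l, (if n ≤ y then r ^ 2 else 0) := sum_le_sum h1
    _ = (((U l).filter (· ≤ y)).card : ℝ) * r ^ 2 := by
        rw [← sum_filter, sum_const, nsmul_eq_mul]
    _ ≤ y * r ^ 2 := mul_le_mul_of_nonneg_right (card_y y (Subset.refl _)) (sq_nonneg r)

/-- the real or the imaginary part -/
def part (b : Bool) (z : ℂ) : ℝ := if b then z.re else z.im

theorem part_le (b : Bool) (z : ℂ) : |part b z| ≤ ‖z‖ := by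
  unfold part
  split_ifs
  · exact Complex.abs_re_le_norm z
  · exact Complex.abs_im_le_norm z

theorem part_sum (b : Bool) (s : Finset ℕ) (f : ℕ → ℂ) :
    part b (∑ n ∈ s, f n) = ∑ n ∈ s, part b (f n) := by
  unfold part
  split_ifs
  · exact Complex.re_sum _ _
  · exact Complex.im_sum _ _

theorem part_sub (b : Bool) (x y : ℂ) (w : ℝ) :
    part b (x - (w : ℂ) * y) = part b x - w * part b y := by
  unfold part
  split_ifs
  · rw [Complex.sub_re, Complex.re_ofReal_mul]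
  · rw [Complex.sub_im, Complex.im_ofReal_mul]

/-- the test functions -/
noncomputable def tt {J : Type} (c : J → ℕ → ℂ) (R : ℕ → ℝ) {l : ℕ}
    (j : J × Fin (4 ^ (l + 1)) × Bool) (n : ℕ) : ℝ :=
  if n ≤ j.2.1.val + 1 then part j.2.2 (c j.1 n) / R (j.2.1.val + 1) else 0

theorem tt_bd {J : Type} (c : J → ℕ → ℂ) (R : ℕ → ℝ) (hR : ∀ y, 1 ≤ y → 0 < R y)
    (hc : ∀ j n, ‖c j n‖ ≤ 1) {l : ℕ} (j : J × Fin (4 ^ (l + 1)) × Bool) (n : ℕ) :
    |tt c R j n| ≤ if n ≤ j.2.1.val + 1 then 1 / R (j.2.1.val + 1) else 0 := by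
  unfold tt
  split_ifs
  · have h0 := hR (j.2.1.val + 1) (by omega)
    rw [abs_div, abs_of_pos h0]
    exact div_le_div_of_nonneg_right ((part_le _ _).trans (hc _ _)) h0.le
  · rw [abs_zero]

theorem tt_sum {J : Type} (c : J → ℕ → ℂ) (R : ℕ → ℝ) {l : ℕ}
    (j : J × Fin (4 ^ (l + 1)) × Bool) (s : Finset ℕ) :
    ∑ n ∈ s, tt c R j n = part j.2.2 (∑ n ∈ s.filter (· ≤ j.2.1.val + 1), c j.1 n) /
      R (j.2.1.val + 1) := by
  unfold tt
  rw [← sum_filter, part_sum, sum_div]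

end Sc

open Sc in
theorem sc (hML : S_ML) (hGR : S_GR) (hWT : S_WT) : S_SC := by
  obtain ⟨Cm, hCm, hml⟩ := hML
  obtain ⟨Cw, l₀, hCw, hwt⟩ := hWT
  obtain ⟨C₁, hC₁⟩ : ∃ C₁ : ℝ, C₁ = 12 + 80 * Cm := ⟨_, rfl⟩
  have hC₁12 : 12 ≤ C₁ := by linarith
  have hC₁0 : 0 < C₁ := by linarith
  refine ⟨12 * C₁ + 3 * Cw, l₀, by positivity, ?_⟩
  intro l hl J _ W c hW hW1 hc
  obtain ⟨hw1, hw2, hw3, hw4⟩ := hwt l hl
  have hl1 : (1 : ℝ) ≤ (l : ℝ) + 1 := by
    have : (0 : ℝ) ≤ l := Nat.cast_nonneg l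
    linarith
  obtain ⟨R, hRd⟩ : ∃ R : ℕ → ℝ, R = fun y : ℕ => C₁ * √(y : ℝ) * ((l : ℝ) + 1) := ⟨_, rfl⟩
  have hR1 : ∀ y : ℕ, 1 ≤ y → 1 ≤ √(y : ℝ) := by
    intro y hy
    rw [Real.one_le_sqrt]
    exact_mod_cast hy
  have hR : ∀ y, 1 ≤ y → 0 < R y := by
    intro y hy
    have h0 := hR1 y hy
    have h1 : 0 < √(y : ℝ) := by linarith
    rw [hRd]
    positivity
  have h4 : (0 : ℝ) < 4 ^ (l + 1) := by positivity
  have hWle : ∀ j, W j ≤ 1 := fun j =>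
    (single_le_sum (fun i _ => (hW i).le) (mem_univ j)).trans hW1
  -- the greedy choice
  obtain ⟨a, ha1, ha2, ha3⟩ := hGR l hw2 (J × Fin (4 ^ (l + 1)) × Bool)
    (fun j => W j.1 / (2 * 4 ^ (l + 1))) (tt c R)
    (fun q u => if u.Prime ∨ (u + q).Prime then 1 else 0)
    (Cw * 2 ^ l / ((l : ℝ) + 1) ^ 2)
    (fun j => div_pos (hW j.1) (by positivity))
    (by
      rw [Fintype.sum_prod_type]
      simp only [sum_const, card_univ, Fintype.card_prod, Fintype.card_fin, Fintype.card_bool,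
        nsmul_eq_mul]
      rw [← mul_sum, ← sum_div]
      push_cast
      have h5 : (4 : ℝ) ^ (l + 1) * 2 * ((∑ j, W j) / (2 * 4 ^ (l + 1))) = ∑ j, W j := by
        field_simp
      rw [h5]
      exact hW1)
    (fun q u => by split_ifs <;> norm_num)
    (by positivity)
    (by
      intro j A hA q hq u
      have h5 := dd_bd (u := u) (tt c R j) (1 / R (j.2.1.val + 1))
        (one_div_nonneg.2 (hR _ (by omega)).le) (tt_bd c R hR hc j) hA hq (Nat.le_add_left 1 _)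
        (Nat.succ_le_of_lt j.2.1.isLt)
      refine h5.trans ?_
      have h6 := hR1 (j.2.1.val + 1) (by omega)
      rw [hRd]
      show 6 * √((j.2.1.val + 1 : ℕ) : ℝ) * (1 / (C₁ * √((j.2.1.val + 1 : ℕ) : ℝ) * ((l : ℝ) + 1))) ≤
        1 / 2
      obtain ⟨s, hs⟩ : ∃ s : ℝ, s = √((j.2.1.val + 1 : ℕ) : ℝ) := ⟨_, rfl⟩
      rw [← hs] at h6 ⊢
      have h7 : 6 * s * (1 / (C₁ * s * ((l : ℝ) + 1))) = 6 / (C₁ * ((l : ℝ) + 1)) := by
        field_simp
      rw [h7, div_le_div_iff₀ (by positivity) (by norm_num)]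
      nlinarith)
    (by
      refine le_trans (le_of_eq ?_) hw4
      refine sum_congr rfl fun q _ => ?_
      congr 1
      rw [Finset.sum_boole, filter_filter])
  refine ⟨a, ha1, ?_, ?_⟩
  swap
  · rw [Finset.sum_boole] at ha3
    refine ha3.trans ?_
    have h5 : 3 * (Cw * 2 ^ l / ((l : ℝ) + 1) ^ 2) = 3 * Cw * 2 ^ l / ((l : ℝ) + 1) ^ 2 := by ring
    rw [h5]
    refine div_le_div_of_nonneg_right ?_ (by positivity)
    refine mul_le_mul_of_nonneg_right ?_ (by positivity)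
    linarith
  intro j
  have hlogW : 0 ≤ Real.log (1 / W j) := by
    refine Real.log_nonneg ?_
    rw [le_div_iff₀ (hW j), one_mul]
    exact hWle j
  obtain ⟨w, hw⟩ : ∃ w : ℝ, w = Real.log (1 / W j) := ⟨_, rfl⟩
  rw [← hw] at hlogW ⊢
  -- the variances
  have hva : ∀ (i : Fin (4 ^ (l + 1))) (b : Bool),
      4 * ∑ q ∈ blk l, va (tt c R (j, i, b)) (sur a l q) q ≤ 1 := by
    intro i b
    have h5 := hml l (i.val + 1) (tt c R (j, i, b)) a (by
      intro n hn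
      unfold tt
      rw [if_neg]
      show ¬ n ≤ i.val + 1
      omega)
    have h6 := sq_bd (l := l) (tt c R (j, i, b)) (1 / R (i.val + 1)) (tt_bd c R hR hc (j, i, b))
    have h7 := hR1 (i.val + 1) (by omega)
    have h8 : (((i.val + 1 : ℕ) : ℝ)) * (1 / R (i.val + 1)) ^ 2 = 1 / (C₁ ^ 2 * ((l : ℝ) + 1) ^ 2) := by
      rw [hRd]
      show (((i.val + 1 : ℕ) : ℝ)) * (1 / (C₁ * √((i.val + 1 : ℕ) : ℝ) * ((l : ℝ) + 1))) ^ 2 = _
      have h9 : √((i.val + 1 : ℕ) : ℝ) ^ 2 = ((i.val + 1 : ℕ) : ℝ) :=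
        Real.sq_sqrt (Nat.cast_nonneg _)
      have h10 : (0 : ℝ) < ((i.val + 1 : ℕ) : ℝ) := by positivity
      rw [div_pow, mul_pow, mul_pow, h9, one_pow]
      field_simp
    have h9 : ((i.val + 1 : ℕ) : ℝ) / 4 ^ l + 1 ≤ 5 := by
      have h10 : ((i.val + 1 : ℕ) : ℝ) ≤ 4 ^ (l + 1) := by
        exact_mod_cast (Nat.succ_le_of_lt i.isLt)
      have h11 : ((i.val + 1 : ℕ) : ℝ) / 4 ^ l ≤ 4 := by
        rw [div_le_iff₀ (by positivity)]
        calc ((i.val + 1 : ℕ) : ℝ) ≤ 4 ^ (l + 1) := h10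
          _ = 4 * 4 ^ l := by ring
      linarith
    have h10 : ((l : ℝ) + 2) ^ 2 ≤ 4 * ((l : ℝ) + 1) ^ 2 := by nlinarith
    have h11 : Cm * ((l : ℝ) + 2) ^ 2 * (((i.val + 1 : ℕ) : ℝ) / 4 ^ l + 1) *
        ∑ n ∈ U l, tt c R (j, i, b) n ^ 2 ≤
        Cm * (4 * ((l : ℝ) + 1) ^ 2) * 5 * (1 / (C₁ ^ 2 * ((l : ℝ) + 1) ^ 2)) := by
      refine mul_le_mul ?_ (h6.trans (le_of_eq h8)) (sum_nonneg fun n _ => sq_nonneg _)
        (by positivity)
      refine mul_le_mul ?_ h9 (by positivity) (by positivity)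
      exact mul_le_mul_of_nonneg_left h10 hCm
    have h12 : Cm * (4 * ((l : ℝ) + 1) ^ 2) * 5 * (1 / (C₁ ^ 2 * ((l : ℝ) + 1) ^ 2)) =
        20 * Cm / C₁ ^ 2 := by
      field_simp
      ring
    have h13 : 4 * (20 * Cm / C₁ ^ 2) ≤ 1 := by
      rw [← mul_div_assoc, div_le_one (by positivity)]
      nlinarith
    rw [h12] at h11
    linarith
  -- the logarithms
  have hlog : Real.log 3 + Real.log (1 / (W j / (2 * 4 ^ (l + 1)))) + 1 ≤
      6 * ((l : ℝ) + 1 + w) := by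
    have h5 : Real.log 3 ≤ 2 := by
      have := Real.log_le_sub_one_of_pos (show (0 : ℝ) < 3 by norm_num)
      linarith
    have h6 : Real.log (1 / (W j / (2 * 4 ^ (l + 1)))) =
        Real.log 2 + ((l : ℝ) + 1) * Real.log 4 + w := by
      have h7 : (1 : ℝ) / (W j / (2 * 4 ^ (l + 1))) = 2 * 4 ^ (l + 1) * (1 / W j) := by
        have := hW j
        field_simp
      have h8 : (1 : ℝ) / W j ≠ 0 := (one_div_pos.2 (hW j)).ne'
      rw [h7, Real.log_mul (by positivity) h8, Real.log_mul (by norm_num) (by positivity),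
        Real.log_pow, hw]
      push_cast
      ring
    have h7 : Real.log 2 ≤ 1 := by
      have := Real.log_le_sub_one_of_pos (show (0 : ℝ) < 2 by norm_num)
      linarith
    have h8 : Real.log 4 = 2 * Real.log 2 := by
      rw [show (4 : ℝ) = 2 ^ 2 by norm_num, Real.log_pow]
      norm_num
    have h9 : 0 ≤ Real.log 2 := Real.log_nonneg (by norm_num)
    rw [h6, h8]
    nlinarith
  -- the tests with `1 ≤ y ≤ 4 ^ (l + 1)`
  have main : ∀ y : ℕ, 1 ≤ y → y ≤ 4 ^ (l + 1) → ∀ b : Bool,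
      |part b (∑ n ∈ (sur a l (fin l)).filter (· ≤ y), c j n -
        (wt l (fin l) : ℂ) * ∑ n ∈ (U l).filter (· ≤ y), c j n)| ≤
      R y * (6 * ((l : ℝ) + 1 + w)) := by
    intro y hy1 hy b
    obtain ⟨i, rfl⟩ : ∃ i, y = i + 1 := ⟨y - 1, by omega⟩
    have h5 := ha2 (j, ⟨i, by omega⟩, b)
    rw [tt_sum, tt_sum] at h5
    have h6 := hva ⟨i, by omega⟩ b
    have h7 := hR (i + 1) (by omega)
    rw [part_sub]
    have h8 : |part b (∑ n ∈ (sur a l (fin l)).filter (· ≤ i + 1), c j n) / R (i + 1) -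
        wt l (fin l) * (part b (∑ n ∈ (U l).filter (· ≤ i + 1), c j n) / R (i + 1))| ≤
        6 * ((l : ℝ) + 1 + w) := by
      refine le_trans h5 ?_
      refine le_trans ?_ hlog
      show Real.log 3 + Real.log (1 / (W j / (2 * 4 ^ (l + 1)))) +
        4 * ∑ q ∈ blk l, va (tt c R (j, ⟨i, by omega⟩, b)) (sur a l q) q ≤ _
      linarith
    have h9 : part b (∑ n ∈ (sur a l (fin l)).filter (· ≤ i + 1), c j n) -
        wt l (fin l) * part b (∑ n ∈ (U l).filter (· ≤ i + 1), c j n) =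
        R (i + 1) * (part b (∑ n ∈ (sur a l (fin l)).filter (· ≤ i + 1), c j n) / R (i + 1) -
        wt l (fin l) * (part b (∑ n ∈ (U l).filter (· ≤ i + 1), c j n) / R (i + 1))) := by
      field_simp
    rw [h9, abs_mul, abs_of_pos h7]
    exact mul_le_mul_of_nonneg_left h8 h7.le
  have main2 : ∀ y : ℕ, 1 ≤ y → y ≤ 4 ^ (l + 1) →
      ‖∑ n ∈ (sur a l (fin l)).filter (· ≤ y), c j n -
        (wt l (fin l) : ℂ) * ∑ n ∈ (U l).filter (· ≤ y), c j n‖ ≤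
      (12 * C₁ + 3 * Cw) * √(y : ℝ) * ((l : ℝ) + 1) * ((l : ℝ) + 1 + w) := by
    intro y hy1 hy
    have h5 := main y hy1 hy true
    have h6 := main y hy1 hy false
    refine (Complex.norm_le_abs_re_add_abs_im _).trans ?_
    have h7 : R y * (6 * ((l : ℝ) + 1 + w)) + R y * (6 * ((l : ℝ) + 1 + w)) =
        12 * C₁ * √(y : ℝ) * ((l : ℝ) + 1) * ((l : ℝ) + 1 + w) := by
      rw [hRd]
      ring
    have h8 : 0 ≤ 3 * Cw * √(y : ℝ) * ((l : ℝ) + 1) * ((l : ℝ) + 1 + w) := by positivity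
    refine (add_le_add h5 h6).trans ?_
    rw [h7]
    linarith
  intro y
  rcases Nat.eq_zero_or_pos y with hy0 | hy0
  · subst hy0
    have h5 : (sur a l (fin l)).filter (· ≤ 0) = ∅ := by
      rw [filter_eq_empty_iff]
      intro n hn
      have := (mem_U (mem_filter.1 hn).1).1
      omega
    have h6 : (U l).filter (· ≤ 0) = ∅ := by
      rw [filter_eq_empty_iff]
      intro n hn
      have := (mem_U hn).1
      omega
    rw [h5, h6, sum_empty, mul_zero, sub_zero, norm_zero]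
    positivity
  rcases Nat.lt_or_ge (4 ^ (l + 1)) y with hy | hy
  swap
  · exact main2 y hy0 hy
  · have h5 : (sur a l (fin l)).filter (· ≤ y) =
        (sur a l (fin l)).filter (· ≤ 4 ^ (l + 1)) := by
      refine filter_congr fun n hn => ?_
      have := (mem_U (mem_filter.1 hn).1).2
      constructor <;> intro _ <;> omega
    have h6 : (U l).filter (· ≤ y) = (U l).filter (· ≤ 4 ^ (l + 1)) := by
      refine filter_congr fun n hn => ?_
      have := (mem_U hn).2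
      constructor <;> intro _ <;> omega
    rw [h5, h6]
    refine (main2 (4 ^ (l + 1)) (Nat.one_le_pow _ _ (by norm_num)) le_rfl).trans ?_
    have h7 : √((4 ^ (l + 1) : ℕ) : ℝ) ≤ √(y : ℝ) := Real.sqrt_le_sqrt (by exact_mod_cast hy.le)
    refine mul_le_mul_of_nonneg_right ?_ (by positivity)
    refine mul_le_mul_of_nonneg_right ?_ (by positivity)
    exact mul_le_mul_of_nonneg_left h7 (by positivity)

end Pool.Agent.H414.GL
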