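import Pool.Agent.H414.GL.Defs
import Pool.Agent.H414.GE.Spec

/-!
The statements which are put together in the project GL. Paper proofs are in the docstrings. Every
`S_X` is true and is to be proved as a theorem (with the hypotheses given in the task).
From `LT.St1`: `kk p` is the number `k` with `2^k < p ≤ 2^(k+1)` (`two_le_kk`,
`mem_blk : p ∈ blk k ↔ p.Prime ∧ kk p = k`). `GE.S_LSA` (the large sieve inequality) is proved.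
-/

set_option autoImplicit false

namespace Pool.Agent.H414.GL

open Finset
open Pool.Agent.H414.LT (primesUpTo blk kk)

/-- the primes in `(2^(l+1), 4^(l+1)]` -/
def U (l : ℕ) : Finset ℕ := (Ioc (2 ^ (l + 1)) (4 ^ (l + 1))).filter Nat.Prime

/-- the `n ∈ U l` with `n ≢ a q' (mod q')` for all the primes `q' ∈ blk l`, `q' < q` -/
def sur (a : ℕ → ℕ) (l q : ℕ) : Finset ℕ :=
  (U l).filter fun n => ∀ q' ∈ blk l, q' < q → ¬ n ≡ a q' [MOD q']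

/-- `q` larger than all elements of `blk l` -/
def fin (l : ℕ) : ℕ := 2 ^ (l + 1) + 1

/-- `∏ (1 - 1 / (q' - 1))` over the `q' ∈ blk l`, `q' < q` -/
noncomputable def wt (l q : ℕ) : ℝ := ∏ q' ∈ (blk l).filter (· < q), (1 - 1 / ((q' : ℝ) - 1))

/-- the sum of `t` over the elements of `A` in the class `u` minus the mean value -/
noncomputable def dd (t : ℕ → ℝ) (A : Finset ℕ) (q u : ℕ) : ℝ :=
  ∑ n ∈ A.filter (fun n => n ≡ u [MOD q]), t n - (∑ n ∈ A, t n) / ((q : ℝ) - 1)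

/-- the variance -/
noncomputable def va (t : ℕ → ℝ) (A : Finset ℕ) (q : ℕ) : ℝ :=
  1 / ((q : ℝ) - 1) * ∑ u ∈ (range q).filter (Nat.Coprime q), dd t A q u ^ 2

/-- LARGE SIEVE FOR CLASSES. As in `GE.S_LS` (file helper414_GE_Ls.lean in the store: `Ls.parseval`, `Ls.variance`, ...; you
may import it): for a prime `q ∈ blk l`, the elements of `U l` are not divisible by `q`, and with `S(α) = ∑_{n ∈ A} t n
e(n α)`, `∑_{u ≠ 0} dd^2 = ∑_{u} |∑_{n ≡ u} t n|^2 - S(0)^2 / (q - 1) ≤ (1 / q) ∑_{1 ≤ b < q} |S(b/q)|^2`. Now `GE.S_LSA` with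
`Q = 2^(l+1)`, `M = 0`, `N = y`; `1 / (q (q - 1)) ≤ 1 / 4^l`. -/
def S_LV : Prop := ∃ C : ℝ, 0 ≤ C ∧ ∀ (l y : ℕ) (t : ℕ → ℝ) (A : Finset ℕ), A ⊆ U l →
  (∀ n ∈ A, n ≤ y) → ∑ q ∈ blk l, va t A q ≤ C * ((y : ℝ) / 4 ^ l + 1) * ∑ n ∈ A, t n ^ 2

/-- MAXIMAL LARGE SIEVE (Rademacher-Menshov). Let `T n` be the least `q ∈ blk l` with `n ≡ a q (mod q)`, and
`T n = 2^(l+1) + 1` if there is none, so `sur a l q = {n ∈ U l : T n ≥ q}`. Replace `U l` by its elements `≤ y`. For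
`q ∈ (2^l, 2^(l+1)]`, with `m = 2^(l+1) - q + 1 ∈ [1, 2^l]`, the interval `[q, 2^(l+1)]` is `{r : 2^(l+1) - r < m}`; by the
binary expansion of `m` it is a disjoint union of at most one dyadic interval `I_i(q)` of each length `2^i`, `0 ≤ i ≤ l`
(`{r : 2^(l+1) - r ∈ [2^i h, 2^i (h + 1))}`, where `h = 2 ⌊m / 2^(i+1)⌋`, if the `i`-th digit of `m` is `1`). So
`dd t (sur a l q) q u` is the sum of at most `l + 2` terms `dd t {n : T n ∈ I_i(q)} q u` (and `{n : T n = 2^(l+1) + 1}`),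
`va t (sur a l q) q ≤ (l + 2) ∑_i va t {T ∈ I_i(q)} q ≤ (l + 2) ∑_i ∑_I va t {T ∈ I} q`, `I` over all dyadic intervals of the
length `2^i` (`va ≥ 0`). Now sum over `q` by `S_LV` and then over the disjoint `I`: each `i` contributes
`≤ C (y / 4^l + 1) ∑ t^2`. -/
def S_ML : Prop := ∃ C : ℝ, 0 ≤ C ∧ ∀ (l y : ℕ) (t : ℕ → ℝ) (a : ℕ → ℕ), (∀ n, y < n → t n = 0) →
  ∑ q ∈ blk l, va t (sur a l q) q ≤ C * ((l : ℝ) + 2) ^ 2 * ((y : ℝ) / 4 ^ l + 1) * ∑ n ∈ U l, t n ^ 2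

/-- GREEDY CHOICE. The `q ∈ blk l` are treated in increasing order. For `X_q = ∑_{sur a l q} t - wt l q ∑_{U l} t` and the
next prime `q⁺` of `blk l` (or `fin l`): `X_{q⁺} = (1 - 1/(q-1)) X_q - dd t (sur a l q) q (a q)`, so `Y_q = X_q / wt l q` satisfies
`Y_{q⁺} = Y_q - D`, `D = dd t (sur a l q) q (a q) / wt l q⁺`, `|D| ≤ 1` (`wt ≥ 1/2`), the mean of `D` over the `q - 1` classes
`a q` prime to `q` is `0` (the elements of `U l` are prime to `q`), the mean of `D^2` is at most `4 va`. As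
`e^u ≤ 1 + u + u^2` for `|u| ≤ 1`, the mean of `e^(± D)` is at most `1 + 4 va ≤ e^(4 va)`. So the mean over `a q` of
`Φ = ∑_j W_j (e^(Y_j - 4 ∑ va_j) + e^(-Y_j - 4 ∑ va_j)) + (∑_{q' < q} b q' (a q') + ∑_{q' ≥ q} mean of b q') / z` (the sums `∑ va_j` over
the `q' < q`) after the choice is at most its value before; choose `a q` with a value at most the mean. At
the beginning `Φ ≤ 2 ∑ W_j + 1 ≤ 3`. At the end `W_j e^(|Y_j| - 4 ∑ va_j) ≤ 3`, `|X| ≤ |Y|` as `wt ≤ 1`, and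
`∑ b q (a q) ≤ 3 z`. (Induction on the number of the primes treated; `sur a l q` depends only on the `a q'`, `q' < q`.)
Note `l ≥ 1`, so `q ≥ 3`, from `1/2 ≤ wt l (fin l)`: for `l = 0` the product is `0`. -/
def S_GR : Prop := ∀ (l : ℕ), 1 / 2 ≤ wt l (fin l) →
  ∀ (J : Type) [Fintype J] (W : J → ℝ) (t : J → ℕ → ℝ) (b : ℕ → ℕ → ℝ) (z : ℝ),
  (∀ j, 0 < W j) → ∑ j, W j ≤ 1 → (∀ q u, 0 ≤ b q u) → 0 < z →
  (∀ j, ∀ A ⊆ U l, ∀ q ∈ blk l, ∀ u : ℕ, |dd (t j) A q u| ≤ 1 / 2) →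
  ∑ q ∈ blk l, 1 / ((q : ℝ) - 1) * ∑ u ∈ (range q).filter (Nat.Coprime q), b q u ≤ z →
  ∃ a : ℕ → ℕ, (∀ q ∈ blk l, (a q).Coprime q ∧ a q < q) ∧
    (∀ j, |∑ n ∈ sur a l (fin l), t j n - wt l (fin l) * ∑ n ∈ U l, t j n| ≤
      Real.log 3 + Real.log (1 / W j) + 4 * ∑ q ∈ blk l, va (t j) (sur a l q) q) ∧
    ∑ q ∈ blk l, b q (a q) ≤ 3 * z

/-- CHEBYSHEV'S UPPER BOUND: `#(blk l) ≤ 2^(l+2) / l` (the product of the primes in `(2^l, 2^(l+1)]` is at most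
`4^(2^(l+1))`, `primorial_le_4_pow`); `q - 1 ≥ 2^l` for `q ∈ blk l`; `∏ (1 - x_i) ≥ 1 - ∑ x_i` for `0 ≤ x_i ≤ 1`. The number of the
`u < q` such that `u` or `u + q` is prime is at most twice the number of the primes `≤ 2^(l+2)`, which is
`≤ ∑_{i ≤ l+1} #(blk i) ≤ C 2^l / (l + 1)`. (For the last inequality of the first line use also that `1 - C / (l + 1) ≥ 1/2` for
large `l`.) -/
def S_WT : Prop := ∃ (C : ℝ) (l₀ : ℕ), 0 < C ∧ ∀ l, l₀ ≤ l → 1 - C / ((l : ℝ) + 1) ≤ wt l (fin l) ∧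
  1 / 2 ≤ wt l (fin l) ∧ wt l (fin l) ≤ 1 ∧
  ∑ q ∈ blk l, 1 / ((q : ℝ) - 1) * (((range q).filter fun u => q.Coprime u ∧ (u.Prime ∨ (u + q).Prime)).card : ℝ) ≤
    C * 2 ^ l / ((l : ℝ) + 1) ^ 2

/-- ONE SCALE. `S_GR` with the tests (`j`, `y`, real or imaginary part), `y ≤ 4^(l+1)`, `t n = Re (c j n) / R` for `n ≤ y`,
`0` for `n > y`, `R = C₁ √y (l + 1)` (`y ≥ 1`), weights `W j / (2 * 4^(l+1))`; `b q u = 1` if `u` or `u + q` is prime, otherwise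
`0`, `z = C 2^l / (l+1)^2` from `S_WT`. `|dd| ≤ (y / q + 1 + y / (q - 1)) / R` (at most `y / q + 1` of the `n ≤ y` are in a class),
and `y / 2^l ≤ 2 √y`, so `|dd| ≤ 5 √y / R ≤ 1/2` for `C₁ ≥ 10`. By `S_ML`, `4 ∑ va ≤ 4 C (l+2)^2 (y / 4^l + 1) y / R^2 ≤
80 C / C₁^2 ≤ 1` (`(l+2)^2 ≤ 4 (l+1)^2`, `y ≤ 4^(l+1)`; `5 * 16 = 80`). The result is `R (log 3 + log (2 * 4^(l+1) / W j) + 1)` for the real
part. For `y > 4^(l+1)` the sums are those for `y = 4^(l+1)`. -/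
def S_SC : Prop := ∃ (C : ℝ) (l₀ : ℕ), 0 ≤ C ∧ ∀ l, l₀ ≤ l →
  ∀ (J : Type) [Fintype J] (W : J → ℝ) (c : J → ℕ → ℂ), (∀ j, 0 < W j) → ∑ j, W j ≤ 1 →
  (∀ j n, ‖c j n‖ ≤ 1) → ∃ a : ℕ → ℕ, (∀ q ∈ blk l, (a q).Coprime q ∧ a q < q) ∧
    (∀ (j : J) (y : ℕ), ‖∑ n ∈ (sur a l (fin l)).filter (· ≤ y), c j n -
      (wt l (fin l) : ℂ) * ∑ n ∈ (U l).filter (· ≤ y), c j n‖ ≤
      C * √(y : ℝ) * ((l : ℝ) + 1) * ((l : ℝ) + 1 + Real.log (1 / W j))) ∧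
    (((blk l).filter fun q => (a q).Prime ∨ (a q + q).Prime).card : ℝ) ≤ C * 2 ^ l / ((l : ℝ) + 1) ^ 2

/-- ONE SCALE, ALL CHARACTERS. Let `R = 2^(4^(l+1))`. For `j < R`, `q ≤ R` apply `S_SC` with `J` = the set of the
`(j, q, χ)`, `j < R`, `1 ≤ q ≤ R`, `χ` mod `q` (e.g. `Fin R × Σ q : Fin R, DirichletCharacter ℂ (q + 1)`),
`W = 1 / (4 (j + 2)^2 q^3)` (there are at most `q` characters modulo `q`:
`DirichletCharacter.card_eq_totient_of_hasEnoughRootsOfUnity`; `∑_j 1/(j+2)^2 ≤ 1`, `∑_q q / q^3 ≤ 2`). If `j ≥ R` or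
`q > R` then `log ((j + 2) q) ≥ 4^(l+1) log 2` and the difference is at most `2 #{n ∈ U l : n ≤ y} ≤ 2 min(y, 4^(l+1)) ≤
2 √y 2^(l+1)` trivially (`0 ≤ wt ≤ 1` by `S_WT`). (A very similar proof is in the store file helper414_GE_Gc.lean.) -/
def S_CC : Prop := ∃ (C : ℝ) (l₀ : ℕ), 0 ≤ C ∧ ∀ l, l₀ ≤ l →
  ∀ c : ℕ → ℕ → ℂ, (∀ j n, ‖c j n‖ ≤ 1) → ∃ a : ℕ → ℕ, (∀ q ∈ blk l, (a q).Coprime q ∧ a q < q) ∧
    (∀ (j q : ℕ) [NeZero q] (χ : DirichletCharacter ℂ q) (y : ℕ),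
      ‖∑ n ∈ (sur a l (fin l)).filter (· ≤ y), c j n * χ n -
      (wt l (fin l) : ℂ) * ∑ n ∈ (U l).filter (· ≤ y), c j n * χ n‖ ≤
      C * √(y : ℝ) * ((l : ℝ) + 1) * ((l : ℝ) + 1 + Real.log ((j + 2) * q))) ∧
    (((blk l).filter fun q => (a q).Prime ∨ (a q + q).Prime).card : ℝ) ≤ C * 2 ^ l / ((l : ℝ) + 1) ^ 2

/-- LEAST ELEMENTS IN PROGRESSIONS. `P` = the primes without the elements of `U l` outside `sur (a_l) l (fin l)`, for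
the `l ∈ L`, `l ≥ l₀` (`l₀` from `S_CC` and `S_WT`, `a_l` from `S_CC`). `U l` is the union of the `blk k`, `l + 1 ≤ k ≤ 2 l + 1`; by the
condition on `L` the intervals `[l + 1, 2 l + 1]`, `l ∈ L`, are disjoint. `w k = wt l (fin l)` for `l + 1 ≤ k ≤ 2 l + 1`, `l ∈ L`,
`l ≥ l₀`, and `w k = 1` otherwise (`1 - C' / (k + 1) ≤ w k ≤ 1` as `k + 1 ≤ 2 (l + 1)`). `Near`: the difference is at most the
sum over the `l ∈ L`, `l ≥ l₀`, `2^(l+1) < x`, of the difference for `U l` and `y = min (x, 4^(l+1))`, which is at most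
`C √y (l + 1) (l + 1 + log ((j + 2) q))`; for the largest such `l` this is `≤ C' √x log (x+2) log ((j+2) q (x+2))`, for the
smaller ones `√y ≤ 2^(l+1)`, a geometric series, `≤ 2 * 2^(l'+1) ≤ 2 √x` in total, `l'` being the second largest
(`2^(2 l' + 2) ≤ 2^l ≤ x`). Last statement: let `q ∈ blk l` with `a q`, `a q + q` not prime, and `p ∈ P`, `p ≤ q^2`,
`p ≡ a q (mod q)`. If `p ≤ 2^(l+1) < 2 q` then `p = a q` or `p = a q + q`, impossible. Otherwise `p ∈ U l` (`q^2 ≤ 4^(l+1)`),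
and `p ∉ sur a l (fin l)`, impossible. -/
def S_T2 : Prop := ∀ L : Set ℕ, (∀ l ∈ L, ∀ l' ∈ L, l < l' → 2 * l + 2 ≤ l') →
  ∀ c : ℕ → ℕ → ℂ, (∀ j n, ‖c j n‖ ≤ 1) →
  ∃ (P : Set ℕ) (w : ℕ → ℝ) (C : ℝ) (l₀ : ℕ), (∀ p ∈ P, p.Prime) ∧
    (∀ k : ℕ, 1 - C / ((k : ℝ) + 1) ≤ w k ∧ 1 / 2 ≤ w k ∧ w k ≤ 1) ∧ Near P w c ∧
    ∀ l ∈ L, l₀ ≤ l → ∃ E ⊆ blk l, (E.card : ℝ) ≤ C * 2 ^ l / ((l : ℝ) + 1) ^ 2 ∧
      ∀ q ∈ blk l, q ∉ E → ∃ a : ℕ, a.Coprime q ∧ ∀ p ∈ P, p ≤ q ^ 2 → ¬ p ≡ a [MOD q]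

end Pool.Agent.H414.GL
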