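import Pool.Agent.H414.GL.Spec
import Pool.Agent.H414.LT.St1

/-!
# Project GL (helper414), task T2 (helper336)
-/

set_option autoImplicit false

namespace Pool.Agent.H414.GL

open Finset
open Pool.Agent.H414.LT (primesUpTo blk kk two_le_kk mem_blk)

namespace T2

theorem mem_U {l p : ℕ} : p ∈ U l ↔ p.Prime ∧ l + 1 ≤ kk p ∧ kk p ≤ 2 * l + 1 := by
  unfold U
  rw [mem_filter, mem_Ioc]
  have h4 : (4 : ℕ) ^ (l + 1) = 2 ^ (2 * l + 2) := by
    rw [show (4 : ℕ) = 2 ^ 2 by norm_num, ← pow_mul]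
    congr 1
  rw [h4]
  constructor
  · rintro ⟨⟨h1, h2⟩, h3⟩
    obtain ⟨h5, h6⟩ := two_le_kk h3.two_le
    refine ⟨h3, ?_, ?_⟩
    · by_contra h7
      have h8 : 2 ^ (kk p + 1) ≤ 2 ^ (l + 1) := Nat.pow_le_pow_right (by norm_num) (by omega)
      omega
    · by_contra h7
      have h8 : 2 ^ (2 * l + 2) ≤ 2 ^ (kk p) := Nat.pow_le_pow_right (by norm_num) (by omega)
      omega
  · rintro ⟨h3, h1, h2⟩
    obtain ⟨h5, h6⟩ := two_le_kk h3.two_le
    have h7 : 2 ^ (l + 1) ≤ 2 ^ (kk p) := Nat.pow_le_pow_right (by norm_num) h1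
    have h8 : 2 ^ (kk p + 1) ≤ 2 ^ (2 * l + 2) := Nat.pow_le_pow_right (by norm_num) (by omega)
    exact ⟨⟨by omega, by omega⟩, h3⟩

theorem geo (s : Finset ℕ) (y : ℝ) (hy : 0 ≤ y) (h : ∀ l ∈ s, (2 : ℝ) ^ (l + 1) ≤ y) :
    ∑ l ∈ s, (2 : ℝ) ^ (l + 1) ≤ 2 * y := by
  rcases s.eq_empty_or_nonempty with h0 | h0
  · rw [h0]
    simp
    exact hy
  · have h1 : s ⊆ range (s.max' h0 + 1) := by
      intro l hl
      rw [mem_range]
      have := s.le_max' l hl
      omega
    have h2 : ∀ m : ℕ, ∑ l ∈ range (m + 1), (2 : ℝ) ^ (l + 1) = 2 * 2 ^ (m + 1) - 2 := by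
      intro m
      induction m with
      | zero => norm_num
      | succ m ih =>
        rw [Finset.sum_range_succ, ih]
        ring
    refine (Finset.sum_le_sum_of_subset_of_nonneg h1 fun l _ _ => by positivity).trans ?_
    rw [h2]
    have := h _ (s.max'_mem h0)
    linarith

theorem blk_sum (x : ℕ) (w : ℕ → ℂ) (f : ℕ → ℂ) :
    ∑ k ∈ range x, w k * ∑ p ∈ (blk k).filter (· ≤ x), f p =
      ∑ p ∈ primesUpTo x, w (kk p) * f p := by
  have h1 : ∀ k ∈ range x, w k * ∑ p ∈ (blk k).filter (· ≤ x), f p =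
      ∑ p ∈ primesUpTo x, if kk p = k then w (kk p) * f p else 0 := by
    intro k _
    rw [Finset.mul_sum, ← Finset.sum_filter]
    refine Finset.sum_congr ?_ ?_
    · ext p
      simp only [mem_filter, mem_blk, primesUpTo, mem_range]
      constructor
      · rintro ⟨⟨h2, h3⟩, h4⟩
        exact ⟨⟨by omega, h2⟩, h3⟩
      · rintro ⟨⟨h2, h3⟩, h4⟩
        exact ⟨⟨h3, h4⟩, by omega⟩
    · intro p hp
      rw [mem_filter] at hp
      rw [hp.2]
  rw [Finset.sum_congr rfl h1, Finset.sum_comm]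
  refine Finset.sum_congr rfl fun p hp => ?_
  rw [primesUpTo, mem_filter, mem_range] at hp
  have h3 : kk p ∈ range x := by
    rw [mem_range]
    have h4 := (two_le_kk hp.2.two_le).1
    have h5 : kk p < 2 ^ (kk p) := Nat.lt_two_pow_self
    omega
  rw [Finset.sum_ite_eq, if_pos h3]

theorem sqrt_four (l : ℕ) : √((4 ^ (l + 1) : ℕ) : ℝ) = 2 ^ (l + 1) := by
  rw [show ((4 ^ (l + 1) : ℕ) : ℝ) = (2 ^ (l + 1)) ^ 2 by
    push_cast
    rw [show (4 : ℝ) = 2 ^ 2 by norm_num, ← pow_mul, ← pow_mul]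
    congr 1
    ring]
  exact Real.sqrt_sq (by positivity)

theorem scales (s : Finset ℕ) (x : ℕ) (h1 : ∀ l ∈ s, 2 ^ (l + 1) < x)
    (h2 : ∀ l ∈ s, ∀ l' ∈ s, l < l' → 2 * l + 2 ≤ l') :
    ∑ l ∈ s, √((min x (4 ^ (l + 1)) : ℕ) : ℝ) ≤ 3 * √(x : ℝ) := by
  have hx := Real.sqrt_nonneg (x : ℝ)
  rw [← Finset.sum_filter_add_sum_filter_not s (fun l => 4 ^ (l + 1) ≤ x)]
  have h3 : ∑ l ∈ s.filter (fun l => 4 ^ (l + 1) ≤ x), √((min x (4 ^ (l + 1)) : ℕ) : ℝ) ≤
      2 * √(x : ℝ) := by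
    have h4 : ∀ l ∈ s.filter (fun l => 4 ^ (l + 1) ≤ x),
        √((min x (4 ^ (l + 1)) : ℕ) : ℝ) = 2 ^ (l + 1) := by
      intro l hl
      rw [min_eq_right (mem_filter.mp hl).2, sqrt_four]
    rw [Finset.sum_congr rfl h4]
    refine geo _ _ hx fun l hl => ?_
    rw [← sqrt_four]
    exact Real.sqrt_le_sqrt (by exact_mod_cast (mem_filter.mp hl).2)
  have h5 : ∑ l ∈ s.filter (fun l => ¬ 4 ^ (l + 1) ≤ x), √((min x (4 ^ (l + 1)) : ℕ) : ℝ) ≤
      √(x : ℝ) := by
    have h6 : (s.filter (fun l => ¬ 4 ^ (l + 1) ≤ x)).card ≤ 1 := by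
      rw [Finset.card_le_one]
      have key : ∀ a ∈ s.filter (fun l => ¬ 4 ^ (l + 1) ≤ x),
          ∀ b ∈ s.filter (fun l => ¬ 4 ^ (l + 1) ≤ x), ¬ a < b := by
        intro a ha b hb hab
        rw [mem_filter] at ha hb
        have h7 := h2 a ha.1 b hb.1 hab
        have h8 := h1 b hb.1
        have h9 : 4 ^ (a + 1) ≤ 2 ^ (b + 1) := by
          rw [show (4 : ℕ) = 2 ^ 2 by norm_num, ← pow_mul]
          exact Nat.pow_le_pow_right (by norm_num) (by omega)
        exact ha.2 (by omega)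
      intro a ha b hb
      have e1 := key a ha b hb
      have e2 := key b hb a ha
      omega
    have h7 : ∀ l ∈ s.filter (fun l => ¬ 4 ^ (l + 1) ≤ x),
        √((min x (4 ^ (l + 1)) : ℕ) : ℝ) ≤ √(x : ℝ) := by
      intro l _
      exact Real.sqrt_le_sqrt (by exact_mod_cast min_le_left _ _)
    have h8 := Finset.sum_le_card_nsmul _ _ _ h7
    rw [nsmul_eq_mul] at h8
    have h9 : ((s.filter (fun l => ¬ 4 ^ (l + 1) ≤ x)).card : ℝ) ≤ 1 := by exact_mod_cast h6
    nlinarith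
  linarith

end T2

open Classical in
theorem t2 (hWT : S_WT) (hCC : S_CC) : S_T2 := by
  obtain ⟨C₁, l₁, hC₁, hw⟩ := hWT
  obtain ⟨C₂, l₂, hC₂, hc⟩ := hCC
  intro L hL c hcn
  set l₀ : ℕ := max l₁ l₂ with hl₀
  have hex : ∀ l, ∃ a : ℕ → ℕ, l₀ ≤ l → (∀ q ∈ blk l, (a q).Coprime q ∧ a q < q) ∧
    (∀ (j q : ℕ) [NeZero q] (χ : DirichletCharacter ℂ q) (y : ℕ),
      ‖∑ n ∈ (sur a l (fin l)).filter (· ≤ y), c j n * χ n -
      (wt l (fin l) : ℂ) * ∑ n ∈ (U l).filter (· ≤ y), c j n * χ n‖ ≤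
      C₂ * √(y : ℝ) * ((l : ℝ) + 1) * ((l : ℝ) + 1 + Real.log ((j + 2) * q))) ∧
    (((blk l).filter fun q => (a q).Prime ∨ (a q + q).Prime).card : ℝ) ≤
      C₂ * 2 ^ l / ((l : ℝ) + 1) ^ 2 := by
    intro l
    by_cases h : l₀ ≤ l
    · obtain ⟨a, ha⟩ := hc l (by omega) c hcn
      exact ⟨a, fun _ => ha⟩
    · exact ⟨fun _ => 0, fun h' => absurd h' h⟩
  choose a ha using hex
  -- the primes and the weights
  set P : Set ℕ := {p | p.Prime ∧ ∀ l, l ∈ L → l₀ ≤ l → p ∈ U l → p ∈ sur (a l) l (fin l)} with hP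
  set w : ℕ → ℝ := fun k => if h : ∃ l, (l ∈ L ∧ l₀ ≤ l) ∧ l + 1 ≤ k ∧ k ≤ 2 * l + 1 then
    wt h.choose (fin h.choose) else 1 with hwdef
  have huniq : ∀ k l l', l ∈ L → l' ∈ L → l + 1 ≤ k → k ≤ 2 * l + 1 → l' + 1 ≤ k →
      k ≤ 2 * l' + 1 → l = l' := by
    intro k l l' h1 h2 h3 h4 h5 h6
    rcases lt_trichotomy l l' with h | h | h
    · have := hL l h1 l' h2 h
      omega
    · exact h
    · have := hL l' h2 l h1 h
      omega
  have hw1 : ∀ k l, l ∈ L → l₀ ≤ l → l + 1 ≤ k → k ≤ 2 * l + 1 → w k = wt l (fin l) := by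
    intro k l h1 h2 h3 h4
    have h : ∃ l, (l ∈ L ∧ l₀ ≤ l) ∧ l + 1 ≤ k ∧ k ≤ 2 * l + 1 := ⟨l, ⟨h1, h2⟩, h3, h4⟩
    have h5 := h.choose_spec
    have h6 : h.choose = l := huniq k _ _ h5.1.1 h1 h5.2.1 h5.2.2 h3 h4
    rw [hwdef]
    simp only
    rw [dif_pos h, h6]
  have hw2 : ∀ k, (¬ ∃ l, (l ∈ L ∧ l₀ ≤ l) ∧ l + 1 ≤ k ∧ k ≤ 2 * l + 1) → w k = 1 := by
    intro k h
    rw [hwdef]
    simp only
    rw [dif_neg h]
  refine ⟨P, w, 2 * C₁ + C₂, l₀, fun p hp => hp.1, ?_, ?_, ?_⟩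
  · intro k
    have hk : (0 : ℝ) < (k : ℝ) + 1 := by positivity
    by_cases h : ∃ l, (l ∈ L ∧ l₀ ≤ l) ∧ l + 1 ≤ k ∧ k ≤ 2 * l + 1
    · obtain ⟨l, ⟨h1, h2⟩, h3, h4⟩ := h
      rw [hw1 k l h1 h2 h3 h4]
      obtain ⟨e1, e2, e3, _⟩ := hw l (by omega)
      refine ⟨?_, e2, e3⟩
      refine le_trans ?_ e1
      have h5 : C₁ / ((l : ℝ) + 1) ≤ 2 * C₁ / ((k : ℝ) + 1) := by
        rw [div_le_div_iff₀ (by positivity) hk]
        have : (k : ℝ) + 1 ≤ 2 * ((l : ℝ) + 1) := by
          have : ((k + 1 : ℕ) : ℝ) ≤ ((2 * (l + 1) : ℕ) : ℝ) := by exact_mod_cast (by omega)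
          push_cast at this
          exact this
        nlinarith
      have h6 : (2 * C₁ + C₂) / ((k : ℝ) + 1) = 2 * C₁ / ((k : ℝ) + 1) + C₂ / ((k : ℝ) + 1) :=
        add_div _ _ _
      have h7 : 0 ≤ C₂ / ((k : ℝ) + 1) := by positivity
      linarith
    · rw [hw2 k h]
      have : 0 ≤ (2 * C₁ + C₂) / ((k : ℝ) + 1) := by positivity
      exact ⟨by linarith, by norm_num, le_rfl⟩
  · refine ⟨12 * C₂, ?_⟩
    intro j q _ χ x
    set f : ℕ → ℂ := fun n => c j n * χ n with hf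
    set Lx : Finset ℕ := (range x).filter (fun l => (l ∈ L ∧ l₀ ≤ l) ∧ 2 ^ (l + 1) < x) with hLx
    set g : ℕ → ℂ := fun p => ((if p ∈ P then 1 else 0) - (w (kk p) : ℂ)) * f p with hg
    have hdiff : ∑ p ∈ (primesUpTo x).filter (· ∈ P), c j p * χ p -
        ∑ k ∈ range x, (w k : ℂ) * ∑ p ∈ (blk k).filter (· ≤ x), c j p * χ p =
        ∑ p ∈ primesUpTo x, g p := by
      rw [T2.blk_sum x (fun k => (w k : ℂ)) f, Finset.sum_filter, ← Finset.sum_sub_distrib]
      refine Finset.sum_congr rfl fun p _ => ?_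
      rw [hg]
      simp only
      split_ifs <;> simp [hf] <;> ring
    have hsub : ∑ p ∈ primesUpTo x, g p = ∑ l ∈ Lx, ∑ p ∈ (U l).filter (· ≤ x), g p := by
      rw [← Finset.sum_biUnion]
      · symm
        refine Finset.sum_subset ?_ ?_
        · intro p hp
          rw [mem_biUnion] at hp
          obtain ⟨l, _, hp⟩ := hp
          rw [mem_filter, T2.mem_U] at hp
          rw [primesUpTo, mem_filter, mem_range]
          exact ⟨by omega, hp.1.1⟩
        · intro p hp hnot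
          rw [primesUpTo, mem_filter, mem_range] at hp
          have h1 : ∀ l, l ∈ L → l₀ ≤ l → p ∉ U l := by
            intro l h2 h3 h4
            apply hnot
            rw [mem_biUnion]
            have h5 : 2 ^ (l + 1) < p := by
              rw [U, mem_filter, mem_Ioc] at h4
              exact h4.1.1
            have h6 : l + 1 < 2 ^ (l + 1) := Nat.lt_two_pow_self
            refine ⟨l, ?_, ?_⟩
            · rw [hLx, mem_filter, mem_range]
              exact ⟨by omega, ⟨h2, h3⟩, by omega⟩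
            · rw [mem_filter]
              exact ⟨h4, by omega⟩
          have h2 : p ∈ P := ⟨hp.2, fun l h3 h4 h5 => absurd h5 (h1 l h3 h4)⟩
          have h3 : w (kk p) = 1 := by
            apply hw2
            rintro ⟨l, ⟨h4, h5⟩, h6, h7⟩
            exact h1 l h4 h5 (T2.mem_U.mpr ⟨hp.2, h6, h7⟩)
          rw [hg]
          simp only
          rw [if_pos h2, h3]
          simp
      · intro l hl l' hl' hne
        rw [Function.onFun, Finset.disjoint_left]
        intro p hp hp'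
        rw [mem_filter, T2.mem_U] at hp hp'
        have e1 : l ∈ L := by
          have := mem_coe.mp hl
          rw [hLx, mem_filter] at this
          exact this.2.1.1
        have e2 : l' ∈ L := by
          have := mem_coe.mp hl'
          rw [hLx, mem_filter] at this
          exact this.2.1.1
        exact hne (huniq (kk p) l l' e1 e2 hp.1.2.1 hp.1.2.2 hp'.1.2.1 hp'.1.2.2)
    have hD : ∀ l ∈ Lx, ∑ p ∈ (U l).filter (· ≤ x), g p =
        ∑ n ∈ (sur (a l) l (fin l)).filter (· ≤ min x (4 ^ (l + 1))), c j n * χ n -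
        (wt l (fin l) : ℂ) * ∑ n ∈ (U l).filter (· ≤ min x (4 ^ (l + 1))), c j n * χ n := by
      intro l hl
      rw [hLx, mem_filter] at hl
      have hUle : ∀ n ∈ U l, n ≤ 4 ^ (l + 1) := by
        intro n hn
        rw [U, mem_filter, mem_Ioc] at hn
        exact hn.1.2
      have h1 : (U l).filter (· ≤ min x (4 ^ (l + 1))) = (U l).filter (· ≤ x) := by
        refine Finset.filter_congr fun n hn => ?_
        have := hUle n hn
        rw [le_min_iff]
        tauto
      have h2 : (sur (a l) l (fin l)).filter (· ≤ min x (4 ^ (l + 1))) =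
          ((U l).filter (· ≤ x)).filter (· ∈ P) := by
        ext n
        simp only [mem_filter]
        constructor
        · rintro ⟨h3, h4⟩
          have h5 : n ∈ U l := (mem_filter.mp h3).1
          refine ⟨⟨h5, h4.trans (min_le_left _ _)⟩, (T2.mem_U.mp h5).1, ?_⟩
          intro l' h6 h7 h8
          have h9 := T2.mem_U.mp h5
          have h10 := T2.mem_U.mp h8
          have h11 : l = l' := huniq (kk n) l l' hl.2.1.1 h6 h9.2.1 h9.2.2 h10.2.1 h10.2.2
          rw [← h11]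
          exact h3
        · rintro ⟨⟨h3, h4⟩, h5⟩
          exact ⟨h5.2 l hl.2.1.1 hl.2.1.2 h3, le_min h4 (hUle n h3)⟩
      rw [h1, h2, Finset.sum_filter (fun n => n ∈ P), Finset.mul_sum, ← Finset.sum_sub_distrib]
      refine Finset.sum_congr rfl fun p hp => ?_
      rw [mem_filter, T2.mem_U] at hp
      rw [hg]
      simp only
      rw [hw1 (kk p) l hl.2.1.1 hl.2.1.2 hp.1.2.1 hp.1.2.2]
      split_ifs <;> simp [hf] <;> ring
    have e0 : ∑ p ∈ (primesUpTo x).filter (· ∈ P), f p -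
        ∑ k ∈ range x, (w k : ℂ) * ∑ p ∈ (blk k).filter (· ≤ x), f p =
        ∑ l ∈ Lx, ∑ p ∈ (U l).filter (· ≤ x), g p := hdiff.trans hsub
    refine le_trans (le_of_eq (congrArg (fun z : ℂ => ‖z‖) (Eq.trans (congrArg₂ (· - ·)
      (Finset.sum_congr ?_ fun _ _ => rfl) (Finset.sum_congr rfl fun k _ =>
        congrArg (fun z => (w k : ℂ) * z) (Finset.sum_congr ?_ fun _ _ => rfl))) e0))) ?_
    · ext p
      simp only [mem_filter]
    · ext p
      simp only [mem_filter]
    have hq1 : 1 ≤ q := Nat.one_le_iff_ne_zero.mpr (NeZero.ne q)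
    have hq1' : (1 : ℝ) ≤ q := by exact_mod_cast hq1
    set A : ℝ := Real.log ((x : ℝ) + 2) with hA
    set B : ℝ := Real.log (((j : ℝ) + 2) * q) with hB
    have hA0 : 0 ≤ A := Real.log_nonneg (by
      have : (0 : ℝ) ≤ x := Nat.cast_nonneg x
      linarith)
    have hB0 : 0 ≤ B := Real.log_nonneg (by
      have : (0 : ℝ) ≤ j := Nat.cast_nonneg j
      nlinarith)
    have hAB : Real.log (((j : ℝ) + 2) * q * (x + 2)) = B + A :=
      Real.log_mul (by positivity) (by positivity)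
    have hbound : ∀ l ∈ Lx, ‖∑ p ∈ (U l).filter (· ≤ x), g p‖ ≤
        4 * C₂ * A * (A + B) * √((min x (4 ^ (l + 1)) : ℕ) : ℝ) := by
      intro l hl
      rw [hD l hl]
      rw [hLx, mem_filter] at hl
      refine ((ha l hl.2.1.2).2.1 j q χ _).trans ?_
      have h1 : (l : ℝ) + 1 ≤ 2 * A := by
        have h2 : ((2 ^ (l + 1) : ℕ) : ℝ) ≤ (x : ℝ) + 2 := by
          have : ((2 ^ (l + 1) : ℕ) : ℝ) ≤ x := by exact_mod_cast hl.2.2.le
          linarith
        have h3 : Real.log ((2 ^ (l + 1) : ℕ) : ℝ) ≤ A :=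
          Real.log_le_log (by positivity) h2
        push_cast at h3
        rw [Real.log_pow] at h3
        push_cast at h3
        have h4 : (1 : ℝ) / 2 ≤ Real.log 2 := by
          have := Real.log_two_gt_d9
          linarith
        have h5 : (0 : ℝ) ≤ (l : ℝ) + 1 := by positivity
        nlinarith
      have h2 : (l : ℝ) + 1 + B ≤ 2 * (A + B) := by linarith
      have h3 : 0 ≤ C₂ * √((min x (4 ^ (l + 1)) : ℕ) : ℝ) := by positivity
      calc C₂ * √((min x (4 ^ (l + 1)) : ℕ) : ℝ) * ((l : ℝ) + 1) * ((l : ℝ) + 1 + B) ≤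
            C₂ * √((min x (4 ^ (l + 1)) : ℕ) : ℝ) * (2 * A) * (2 * (A + B)) := by
              apply mul_le_mul (mul_le_mul_of_nonneg_left h1 h3) h2 (by positivity) (by positivity)
        _ = _ := by ring
    refine (norm_sum_le _ _).trans ((Finset.sum_le_sum hbound).trans ?_)
    rw [← Finset.mul_sum]
    have hsc := T2.scales Lx x (fun l hl => by
      rw [hLx, mem_filter] at hl
      exact hl.2.2) (fun l hl l' hl' h => by
      rw [hLx, mem_filter] at hl hl'
      exact hL l hl.2.1.1 l' hl'.2.1.1 h)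
    rw [hAB]
    calc 4 * C₂ * A * (A + B) * ∑ l ∈ Lx, √((min x (4 ^ (l + 1)) : ℕ) : ℝ) ≤
          4 * C₂ * A * (A + B) * (3 * √(x : ℝ)) := mul_le_mul_of_nonneg_left hsc (by positivity)
      _ = _ := by ring
  · intro l hl hl0
    obtain ⟨h1, h2, h3⟩ := ha l hl0
    refine ⟨(blk l).filter (fun q => (a l q).Prime ∨ (a l q + q).Prime), Finset.filter_subset _ _,
      h3.trans ?_, ?_⟩
    · apply div_le_div_of_nonneg_right _ (by positivity)
      apply mul_le_mul_of_nonneg_right _ (by positivity)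
      linarith
    · intro q hq hqE
      refine ⟨a l q, (h1 q hq).1, ?_⟩
      intro p hp hpq hmod
      have hq' := hq
      rw [blk, mem_filter, mem_Ioc] at hq'
      have hpr : ¬ (a l q).Prime ∧ ¬ (a l q + q).Prime := by
        constructor <;> intro h <;> exact hqE (mem_filter.mpr ⟨hq, by tauto⟩)
      have haq := (h1 q hq).2
      rcases le_or_gt p (2 ^ (l + 1)) with h4 | h4
      · have h5 : p < 2 * q := by
          have := hq'.1.1
          rw [pow_succ] at h4
          omega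
        have h6 : p % q = a l q := by
          rw [Nat.ModEq] at hmod
          rw [hmod]
          exact Nat.mod_eq_of_lt haq
        have h7 : p = q * (p / q) + a l q := by
          have := Nat.div_add_mod p q
          omega
        have h8 : p / q < 2 := Nat.div_lt_of_lt_mul (by omega)
        have h9 : p / q = 0 ∨ p / q = 1 := by
          generalize p / q = m at h8
          omega
        rcases h9 with h9 | h9
        · rw [h9] at h7
          apply hpr.1
          rw [show a l q = p by omega]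
          exact hp.1
        · rw [h9] at h7
          apply hpr.2
          rw [show a l q + q = p by omega]
          exact hp.1
      · have h5 : p ∈ U l := by
          rw [U, mem_filter, mem_Ioc]
          refine ⟨⟨h4, hpq.trans ?_⟩, hp.1⟩
          calc q ^ 2 ≤ (2 ^ (l + 1)) ^ 2 := Nat.pow_le_pow_left hq'.1.2 2
            _ = 4 ^ (l + 1) := by
              rw [← pow_mul, show (4 : ℕ) = 2 ^ 2 by norm_num, ← pow_mul]
              congr 1
              ring
        have h6 := hp.2 l hl hl0 h5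
        rw [sur, mem_filter] at h6
        exact h6.2 q hq (by rw [fin]; omega) hmod

end Pool.Agent.H414.GL
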