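import Pool.Agent.H414.GL.Spec

/-!
# The weights and the number of the primes in a block (`S_WT`; helper51)
-/

set_option autoImplicit false

namespace Pool.Agent.H414.GL

open Finset
open Pool.Agent.H414.LT (primesUpTo blk kk)

namespace Wt

theorem sq_le (m : ℕ) : m ^ 2 ≤ 4 * 2 ^ m := by
  induction m with
  | zero => norm_num
  | succ m ih =>
    rcases Nat.lt_or_ge m 3 with h | h
    · have : m = 0 ∨ m = 1 ∨ m = 2 := by omega
      rcases this with rfl | rfl | rfl <;> norm_num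
    · have h1 : (m + 1) ^ 2 ≤ 2 * m ^ 2 := by nlinarith
      calc (m + 1) ^ 2 ≤ 2 * m ^ 2 := h1
        _ ≤ 2 * (4 * 2 ^ m) := Nat.mul_le_mul_left _ ih
        _ = 4 * 2 ^ (m + 1) := by ring

/-- Chebyshev's bound at the powers of `2` -/
theorem pi_bd (m : ℕ) (hm : 1 ≤ m) : (Nat.primeCounting (2 ^ m) : ℝ) ≤ 6 * 2 ^ m / m := by
  have hm0 : (0 : ℝ) < m := by exact_mod_cast hm
  have hx : (1 : ℝ) < 2 ^ m := one_lt_pow₀ (by norm_num) (by omega)
  have h := Chebyshev.pi_le_log4_mul_div hx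
  have hfl : ⌊(2 : ℝ) ^ m⌋₊ = 2 ^ m := by
    have : ((2 : ℝ) ^ m) = ((2 ^ m : ℕ) : ℝ) := by push_cast; rfl
    rw [this, Nat.floor_natCast]
  rw [hfl] at h
  have hl2 : 0 < Real.log 2 := Real.log_pos (by norm_num)
  have h4 : Real.log 4 = 2 * Real.log 2 := by
    rw [show (4 : ℝ) = 2 ^ 2 by norm_num, Real.log_pow]
    norm_num
  have h5 : Real.log √((2 : ℝ) ^ m) = m / 2 * Real.log 2 := by
    rw [Real.log_sqrt (by positivity), Real.log_pow]
    ring
  rw [h4, h5] at h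
  have h6 : 2 * Real.log 2 * 2 ^ m / (m / 2 * Real.log 2) = 4 * 2 ^ m / m := by
    field_simp
    norm_num
  rw [h6] at h
  have h7 : √((2 : ℝ) ^ m) ≤ 2 * 2 ^ m / m := by
    rw [le_div_iff₀ hm0]
    have h8 : (m : ℝ) / 2 ≤ √((2 : ℝ) ^ m) := by
      apply Real.le_sqrt_of_sq_le
      have h9 : (m : ℝ) ^ 2 ≤ 4 * 2 ^ m := by exact_mod_cast sq_le m
      nlinarith
    have h10 : √((2 : ℝ) ^ m) * √((2 : ℝ) ^ m) = 2 ^ m := Real.mul_self_sqrt (by positivity)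
    have h11 : 0 ≤ √((2 : ℝ) ^ m) := Real.sqrt_nonneg _
    nlinarith
  have h12 : 6 * (2 : ℝ) ^ m / m = 4 * 2 ^ m / m + 2 * 2 ^ m / m := by ring
  rw [h12]
  linarith

theorem card_primes_le (A : Finset ℕ) (n : ℕ) (hA : ∀ p ∈ A, p.Prime ∧ p ≤ n) :
    A.card ≤ Nat.primeCounting n := by
  rw [← Nat.primesLE_card_eq_primeCounting]
  apply card_le_card
  intro p hp
  exact Nat.mem_primesLE.2 ⟨(hA p hp).2, (hA p hp).1⟩

theorem blk_card (l : ℕ) : ((blk l).card : ℝ) ≤ 12 * 2 ^ l / ((l : ℝ) + 1) := by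
  have h1 : (blk l).card ≤ Nat.primeCounting (2 ^ (l + 1)) := by
    apply card_primes_le
    intro p hp
    unfold blk at hp
    rw [mem_filter, mem_Ioc] at hp
    exact ⟨hp.2, hp.1.2⟩
  have h2 := pi_bd (l + 1) (by omega)
  have h3 : ((blk l).card : ℝ) ≤ (Nat.primeCounting (2 ^ (l + 1)) : ℝ) := by exact_mod_cast h1
  refine h3.trans (h2.trans (le_of_eq ?_))
  push_cast
  ring

theorem blk_lt {l q : ℕ} (hq : q ∈ blk l) : 2 ^ l < q ∧ q ≤ 2 ^ (l + 1) ∧ q.Prime := by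
  unfold blk at hq
  rw [mem_filter, mem_Ioc] at hq
  exact ⟨hq.1.1, hq.1.2, hq.2⟩

theorem inv_le {l q : ℕ} (hq : q ∈ blk l) : 1 / ((q : ℝ) - 1) ≤ 1 / 2 ^ l ∧
    0 ≤ 1 / ((q : ℝ) - 1) := by
  have h1 : ((2 ^ l + 1 : ℕ) : ℝ) ≤ q := by exact_mod_cast (blk_lt hq).1
  push_cast at h1
  have h2 : (0 : ℝ) < 2 ^ l := by positivity
  exact ⟨one_div_le_one_div_of_le h2 (by linarith), div_nonneg zero_le_one (by linarith)⟩

theorem prod_ge (A : Finset ℕ) (f : ℕ → ℝ) (h : ∀ p ∈ A, 0 ≤ f p ∧ f p ≤ 1) :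
    1 - ∑ p ∈ A, f p ≤ ∏ p ∈ A, (1 - f p) ∧ ∏ p ∈ A, (1 - f p) ≤ 1 := by
  constructor
  · classical
    induction A using Finset.induction_on with
    | empty => simp
    | insert a A ha ih =>
      rw [sum_insert ha, prod_insert ha]
      have h1 := ih fun p hp => h p (mem_insert_of_mem hp)
      have h2 := h a (mem_insert_self _ _)
      have h3 : 0 ≤ ∑ p ∈ A, f p := sum_nonneg fun p hp => (h p (mem_insert_of_mem hp)).1
      have h4 : (1 - f a) * (1 - ∑ p ∈ A, f p) ≤ (1 - f a) * ∏ p ∈ A, (1 - f p) :=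
        mul_le_mul_of_nonneg_left h1 (by linarith)
      nlinarith [mul_nonneg h2.1 h3]
  · apply prod_le_one
    · intro p hp
      linarith [(h p hp).2]
    · intro p hp
      linarith [(h p hp).1]

theorem wt_eq (l : ℕ) : wt l (fin l) = ∏ q ∈ blk l, (1 - 1 / ((q : ℝ) - 1)) := by
  unfold wt fin
  rw [filter_true_of_mem]
  intro q hq
  have := (blk_lt hq).2.1
  omega

theorem count_le (l q : ℕ) (hq : q ∈ blk l) :
    ((((range q).filter fun u => q.Coprime u ∧ (u.Prime ∨ (u + q).Prime)).card : ℕ) : ℝ) ≤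
      48 * 2 ^ l / ((l : ℝ) + 1) := by
  obtain ⟨h1, h2, h3⟩ := blk_lt hq
  have hpow : 2 ^ (l + 2) = 2 * 2 ^ (l + 1) := by ring
  have h4 : ((range q).filter fun u => q.Coprime u ∧ (u.Prime ∨ (u + q).Prime)) ⊆
      ((range q).filter fun u => u.Prime) ∪ ((range q).filter fun u => (u + q).Prime) := by
    intro u hu
    rw [mem_filter] at hu
    rw [mem_union, mem_filter, mem_filter]
    rcases hu.2.2 with h | h
    · exact Or.inl ⟨hu.1, h⟩
    · exact Or.inr ⟨hu.1, h⟩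
  have h5 : ((range q).filter fun u => u.Prime).card ≤ Nat.primeCounting (2 ^ (l + 2)) := by
    apply card_primes_le
    intro p hp
    rw [mem_filter, mem_range] at hp
    exact ⟨hp.2, by omega⟩
  have h6 : ((range q).filter fun u => (u + q).Prime).card ≤ Nat.primeCounting (2 ^ (l + 2)) := by
    rw [← card_image_of_injective _ (add_left_injective q)]
    apply card_primes_le
    intro p hp
    rw [mem_image] at hp
    obtain ⟨u, hu, rfl⟩ := hp
    rw [mem_filter, mem_range] at hu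
    exact ⟨hu.2, by omega⟩
  have h7 := (card_le_card h4).trans (card_union_le _ _)
  have h8 : (((range q).filter fun u => q.Coprime u ∧ (u.Prime ∨ (u + q).Prime)).card : ℕ) ≤
      2 * Nat.primeCounting (2 ^ (l + 2)) := by omega
  have h9 : ((((range q).filter fun u => q.Coprime u ∧ (u.Prime ∨ (u + q).Prime)).card : ℕ) : ℝ) ≤
      2 * (Nat.primeCounting (2 ^ (l + 2)) : ℝ) := by exact_mod_cast h8
  have h10 := pi_bd (l + 2) (by omega)
  have hl : (0 : ℝ) < (l : ℝ) + 1 := by positivity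
  have h11 : 6 * (2 : ℝ) ^ (l + 2) / ((l + 2 : ℕ) : ℝ) ≤ 24 * 2 ^ l / ((l : ℝ) + 1) := by
    have : 6 * (2 : ℝ) ^ (l + 2) = 24 * 2 ^ l := by ring
    rw [this]
    apply div_le_div_of_nonneg_left (by positivity) hl
    push_cast
    linarith
  have h12 : 48 * (2 : ℝ) ^ l / ((l : ℝ) + 1) = 2 * (24 * 2 ^ l / ((l : ℝ) + 1)) := by ring
  rw [h12]
  linarith

end Wt

open Wt in
theorem wtb : S_WT := by
  refine ⟨576, 23, by norm_num, fun l hl => ?_⟩
  have hl' : (23 : ℝ) ≤ l := by exact_mod_cast hl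
  have hl1 : (0 : ℝ) < (l : ℝ) + 1 := by linarith
  have h2l : (0 : ℝ) < 2 ^ l := by positivity
  have hbc := blk_card l
  have hf : ∀ q ∈ blk l, 0 ≤ 1 / ((q : ℝ) - 1) ∧ 1 / ((q : ℝ) - 1) ≤ 1 := by
    intro q hq
    refine ⟨(inv_le hq).2, (inv_le hq).1.trans ?_⟩
    rw [div_le_one h2l]
    exact one_le_pow₀ (by norm_num)
  obtain ⟨h1, h2⟩ := prod_ge (blk l) (fun q => 1 / ((q : ℝ) - 1)) hf
  rw [← wt_eq] at h1 h2
  have hsum : ∑ q ∈ blk l, 1 / ((q : ℝ) - 1) ≤ 12 / ((l : ℝ) + 1) := by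
    calc ∑ q ∈ blk l, 1 / ((q : ℝ) - 1) ≤ ∑ _q ∈ blk l, 1 / (2 : ℝ) ^ l :=
          sum_le_sum fun q hq => (inv_le hq).1
      _ = ((blk l).card : ℝ) / 2 ^ l := by
          rw [sum_const, nsmul_eq_mul, mul_one_div]
      _ ≤ 12 * 2 ^ l / ((l : ℝ) + 1) / 2 ^ l := div_le_div_of_nonneg_right hbc h2l.le
      _ = 12 / ((l : ℝ) + 1) := by
          field_simp
  have h12 : 12 / ((l : ℝ) + 1) ≤ 1 / 2 := by
    rw [div_le_div_iff₀ hl1 (by norm_num)]
    linarith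
  refine ⟨?_, by linarith, h2, ?_⟩
  · have : 12 / ((l : ℝ) + 1) ≤ 576 / ((l : ℝ) + 1) :=
      div_le_div_of_nonneg_right (by norm_num) hl1.le
    linarith
  · calc ∑ q ∈ blk l, 1 / ((q : ℝ) - 1) *
          (((range q).filter fun u => q.Coprime u ∧ (u.Prime ∨ (u + q).Prime)).card : ℝ) ≤
          ∑ q ∈ blk l, 1 / ((q : ℝ) - 1) * (48 * 2 ^ l / ((l : ℝ) + 1)) :=
          sum_le_sum fun q hq => mul_le_mul_of_nonneg_left (count_le l q hq) (inv_le hq).2
      _ = (∑ q ∈ blk l, 1 / ((q : ℝ) - 1)) * (48 * 2 ^ l / ((l : ℝ) + 1)) := by rw [sum_mul]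
      _ ≤ 12 / ((l : ℝ) + 1) * (48 * 2 ^ l / ((l : ℝ) + 1)) :=
          mul_le_mul_of_nonneg_right hsum (by positivity)
      _ = 576 * 2 ^ l / ((l : ℝ) + 1) ^ 2 := by
          field_simp
          norm_num

end Pool.Agent.H414.GL
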